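import Pool.Agent.Lib.SE.K.Asm

/-!
# PROJECT SE-K: one meagre set, all pairs (helper64)
-/

set_option autoImplicit false

open Module MeasureTheory Topology

noncomputable section

namespace SEK

open HC HC.E HC.SE SEB SEQ SEG SEY SEX SEZ

/-- The bad set of two types of covers, no condition. -/
theorem pairK (K : ModsK) (hP : S_zP) (hZC : S_zC) (p m r : ℕ) (b : Fin (r + 1) → ℕ)
    (m' r' : ℕ) (b' : Fin (r' + 1) → ℕ) (ι : Fin (r + 1) → Fin p) (ι' : Fin (r' + 1) → Fin p)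
    (k k' : Option (Fin p)) (hk : Okk ι k) (hk' : Okk ι' k') (hr : 2 ≤ r) (hW : HypW m r b)
    (hW' : HypW m' r' b') :
    IsMeagre {s : Fin p → ℂ | Function.Injective s ∧
      ¬ InX m r b m' r' b' (pt s ι k) (pt s ι' k')} := by
  by_cases h3 : 3 ≤ r ∨ Bs ι k ≠ Bs ι' k'
  · exact SEZ.pairX modsX hP hZC p m r b m' r' b' ι ι' k k' hk hk' (by omega) h3 hW hW'
  rw [not_or, not_not] at h3
  obtain ⟨hr3, hB⟩ := h3
  by_cases hrr : r = r'
  swap
  · have : {s : Fin p → ℂ | Function.Injective s ∧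
        ¬ InX m r b m' r' b' (pt s ι k) (pt s ι' k')} = ∅ :=
      Set.eq_empty_of_forall_notMem fun s hs => hs.2 (inX_ne modsX hrr)
    rw [this]
    exact IsMeagre.empty
  subst hrr
  obtain rfl : r = 2 := by omega
  obtain ⟨rfl, σ, rfl⟩ := bs_eq hk hk' hB
  refine (hP.1 p 2 ι k hk _ (pairS2 K m b m' (b' ∘ σ.symm) hW
    (hypW_perm σ.symm hW'))).mono ?_
  rintro s ⟨hinj, hs⟩
  refine ⟨hinj, fun h => hs (inX_perm modsX (Equiv.refl _) σ.symm ?_)⟩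
  have e1 : pt s (ι ∘ σ) k ∘ σ.symm = pt s ι k := by
    rw [pt_comp]
    funext i
    simp only [Function.comp_apply, Equiv.apply_symm_apply]
  rw [e1]
  exact h

/-- **Jnk**: VERY GENERAL POINTS OF THE LINE. As `S_Jnz`, any two cyclic covers with at least 4 branch points. -/
def S_Jnk : Prop :=
  ∀ M : (m r : ℕ) → (Fin (r + 1) → ℕ) → Set (Fin (r + 1) → ℂ), (∀ m r b, IsMeagre (M m r b)) →
  ∃ M' : (p : ℕ) → Set (Fin p → ℂ), (∀ p, IsMeagre (M' p)) ∧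
    ∀ (p : ℕ) (s : Fin p → ℂ), s ∉ M' p → Function.Injective s ∧
      (∀ (m r : ℕ) (b : Fin (r + 1) → ℕ) (ι : Fin (r + 1) → Fin p) (k : Option (Fin p)),
        Okk ι k → pt s ι k ∉ M m r b) ∧
      ∀ (m r : ℕ) (b : Fin (r + 1) → ℕ) (m' r' : ℕ) (b' : Fin (r' + 1) → ℕ)
        (ι : Fin (r + 1) → Fin p) (k : Option (Fin p)) (ι' : Fin (r' + 1) → Fin p)
        (k' : Option (Fin p)), Okk ι k → Okk ι' k' → 2 ≤ r → 2 ≤ r' →
        HypW m r b → HypW m' r' b' → IsCov m (pt s ι k) b → IsCov m' (pt s ι' k') b' →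
        ∀ (T T' : AV) (N : New T m (pt s ι k) b) (N' : New T' m' (pt s ι' k') b')
          (D : Cyc T m) (D' : Cyc T' m'), D.Z = N.Z → D'.Z = N'.Z →
          (r = 2 → ∃ D₀ : Cyc T m, D₀.Z = N.Z ∧ GFw D₀ r) →
          (r' = 2 → ∃ D₀ : Cyc T' m', D₀.Z = N'.Z ∧ GFw D₀ r') → Isg T T' ∨ Ind D D'

/-- The bad sets of the pairs. -/
def MK (p : ℕ) : Set (Fin p → ℂ) :=
  ⋃ (m : ℕ) (r : ℕ) (b : Fin (r + 1) → ℕ) (m' : ℕ) (r' : ℕ) (b' : Fin (r' + 1) → ℕ)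
    (ι : Fin (r + 1) → Fin p) (ι' : Fin (r' + 1) → Fin p) (k : Option (Fin p))
    (k' : Option (Fin p)),
    {s | (Okk ι k ∧ Okk ι' k' ∧ 2 ≤ r ∧ HypW m r b ∧
      HypW m' r' b') ∧ Function.Injective s ∧ ¬ InX m r b m' r' b' (pt s ι k) (pt s ι' k')}

theorem mk_meagre (K : ModsK) (hP : S_zP) (hZC : S_zC) (p : ℕ) : IsMeagre (MK p) := by
  refine isMeagre_iUnion fun m => isMeagre_iUnion fun r => isMeagre_iUnion fun b =>
    isMeagre_iUnion fun m' => isMeagre_iUnion fun r' => isMeagre_iUnion fun b' =>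
    isMeagre_iUnion fun ι => isMeagre_iUnion fun ι' => isMeagre_iUnion fun k =>
    isMeagre_iUnion fun k' => ?_
  by_cases h : Okk ι k ∧ Okk ι' k' ∧ 2 ≤ r ∧ HypW m r b ∧ HypW m' r' b'
  · obtain ⟨h1, h2, h3, h5, h6⟩ := h
    exact (pairK K hP hZC p m r b m' r' b' ι ι' k k' h1 h2 h3 h5 h6).mono
      fun s hs => hs.2
  · refine (IsMeagre.empty).mono fun s hs => ?_
    exact absurd hs.1 h

/-- **Jnk.** -/
theorem jnk_of (K : ModsK) (hP : S_zP) (hZC : S_zC) : S_Jnk := by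
  intro M hM
  refine ⟨fun p => ((SEZ.MP M p ∪ SEZ.MP MMx p) ∪ MK p) ∪ {s | ¬ Function.Injective s},
    fun p => (((SEZ.mp_meagre M hM hP p).union (SEZ.mp_meagre MMx SEB.tMx hP p)).union
      (mk_meagre K hP hZC p)).union (hP.2.2 p), ?_⟩
  intro p s hs
  rw [Set.mem_union, Set.mem_union, Set.mem_union, not_or, not_or, not_or] at hs
  obtain ⟨⟨⟨h1, h2⟩, h3⟩, h4⟩ := hs
  have hinj : Function.Injective s := not_not.1 h4
  refine ⟨hinj, SEZ.notMem_mp hinj h1, ?_⟩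
  intro m r b m' r' b' ι k ι' k' hk hk' hr hr' hW hW' hc hc' T T' N N' D D' hD hD' h6 h7
  have h8 : InX m r b m' r' b' (pt s ι k) (pt s ι' k') := by
    by_contra hno
    refine h3 ?_
    simp only [MK, Set.mem_iUnion]
    exact ⟨m, r, b, m', r', b', ι, ι', k, k', ⟨hk, hk', hr, hW, hW'⟩, hinj, hno⟩
  have key : ∀ (m r : ℕ) (b : Fin (r + 1) → ℕ) (ι : Fin (r + 1) → Fin p)
      (k : Option (Fin p)), Okk ι k → 2 ≤ r → HypW m r b → IsCov m (pt s ι k) b →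
      ∀ (T : AV) (N : New T m (pt s ι k) b) (D : Cyc T m), D.Z = N.Z →
      (r = 2 → ∃ D₀ : Cyc T m, D₀.Z = N.Z ∧ GFw D₀ r) → GFw D r := by
    intro m r b ι k hk hr hW hc T N D hD h
    by_cases hr2 : r = 2
    · obtain ⟨D₀, e1, e2⟩ := h hr2
      exact gfw_congr (hD.trans e1.symm) e2
    · exact (gfw_of_MMx (by omega) hW hc (SEZ.notMem_mp hinj h2 m r b ι k hk) N D hD).1
  exact h8 T T' hc hc' N D hD (key m r b ι k hk hr hW hc T N D hD h6) N' D' hD'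
    (key m' r' b' ι' k' hk' hr' hW' hc' T' N' D' hD' h7)

end SEK
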