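import Pool.Agent.Lib.SE.K.Spec
import Pool.Agent.Lib.SE.Big.cPv

/-! # PROJECT SE-K, module q1: the hypergeometric equation -/

set_option autoImplicit false

open Module MeasureTheory Topology

noncomputable section

namespace SEK

open HC HC.E HC.SE SEB SEQ SEG SEY SEX

namespace q1_aux

open SEB.cRk1_aux

/-! ### Linearity of the integral -/

theorem Ic_add (hI : S_cI) {r : ℕ} {μ : Fin (r + 1) → ℝ} (hμ : Exq μ)
    {s : Fin (r + 1) → ℂ} (hs : Inc s) (k : Fin r) (f g : Polynomial ℂ) :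
    (Ic μ s k fun x => (f + g).eval x) =
      (Ic μ s k fun x => f.eval x) + Ic μ s k fun x => g.eval x := by
  simp only [Ic, Polynomial.eval_add, mul_add]
  rw [intervalIntegral.integral_add (SEB.cPv_aux.integrable_c hI hμ hs k f)
    (SEB.cPv_aux.integrable_c hI hμ hs k g)]

theorem Ic_C_mul {r : ℕ} (μ : Fin (r + 1) → ℝ) (s : Fin (r + 1) → ℂ) (k : Fin r) (c : ℂ)
    (f : Polynomial ℂ) :
    (Ic μ s k fun x => (Polynomial.C c * f).eval x) = c * Ic μ s k fun x => f.eval x := by
  have h1 : ∀ t : ℝ, (((t ^ (-μ k.castSucc) * (1 - t) ^ (-μ k.succ) : ℝ)) : ℂ) *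
      (Hc μ s k t * (c * f.eval (seg s k t))) =
      c * ((((t ^ (-μ k.castSucc) * (1 - t) ^ (-μ k.succ) : ℝ)) : ℂ) *
      (Hc μ s k t * f.eval (seg s k t))) := fun t => by ring
  simp only [Ic, Polynomial.eval_mul, Polynomial.eval_C, h1]
  rw [intervalIntegral.integral_const_mul]

/-! ### Three indices -/

theorem erase_fin : ∀ i j l : Fin (2 + 1), i ≠ j → i ≠ l → j ≠ l →
    Finset.univ.erase i = {j, l} := by decide

theorem univ_fin : ∀ i j l : Fin (2 + 1), i ≠ j → i ≠ l → j ≠ l →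
    (Finset.univ : Finset (Fin (2 + 1))) = {i, j, l} := by decide

theorem sum_fin {M : Type*} [AddCommMonoid M] (F : Fin (2 + 1) → M) {i j l : Fin (2 + 1)}
    (h1 : i ≠ j) (h2 : i ≠ l) (h3 : j ≠ l) : ∑ n, F n = F i + (F j + F l) := by
  rw [univ_fin i j l h1 h2 h3, Finset.sum_insert (by simp [h1, h2]), Finset.sum_pair h3]

theorem ac_fin (s : Fin (2 + 1) → ℂ) {i j l : Fin (2 + 1)} (h1 : i ≠ j) (h2 : i ≠ l)
    (h3 : j ≠ l) : ac s i = Polynomial.C (((s i - s j) * (s i - s l))⁻¹) *
      ((Polynomial.X - Polynomial.C (s j)) * (Polynomial.X - Polynomial.C (s l))) := by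
  rw [ac, cc, erase_fin i j l h1 h2 h3, Finset.prod_pair h3, Finset.prod_pair h3]

/-- The polynomial `Thc μ s (ac s i) 1` has degree one. -/
theorem Th_fin (μ : Fin (2 + 1) → ℝ) (s : Fin (2 + 1) → ℂ) {i j l : Fin (2 + 1)} (h1 : i ≠ j)
    (h2 : i ≠ l) (h3 : j ≠ l) :
    Thc μ s (ac s i) 1 =
      Polynomial.C ((2 - ((μ i : ℂ) + (μ j + μ l))) * ((s i - s j) * (s i - s l))⁻¹) *
        (Polynomial.X - Polynomial.C (s i)) +
      Polynomial.C (((1 - (μ i : ℂ) - μ l) * (s i - s j) + (1 - (μ i : ℂ) - μ j) * (s i - s l)) *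
        ((s i - s j) * (s i - s l))⁻¹) * 1 := by
  set d : ℂ := ((s i - s j) * (s i - s l))⁻¹ with hd
  have ha := ac_fin s h1 h2 h3
  rw [← hd] at ha
  have hi : ac s i /ₘ (Polynomial.X - Polynomial.C (s i)) = Polynomial.C d *
      (Polynomial.X + Polynomial.C (s i) - Polynomial.C (s j) - Polynomial.C (s l)) := by
    refine dv_unique ?_
    rw [ha]
    simp only [Polynomial.eval_mul, Polynomial.eval_sub, Polynomial.eval_C, Polynomial.eval_X,
      Polynomial.C_mul, Polynomial.C_sub]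
    ring
  have hj : ac s i /ₘ (Polynomial.X - Polynomial.C (s j)) = Polynomial.C d *
      (Polynomial.X - Polynomial.C (s l)) := by
    refine dv_unique ?_
    rw [ha]
    simp only [Polynomial.eval_mul, Polynomial.eval_sub, Polynomial.eval_C, Polynomial.eval_X,
      Polynomial.C_mul, Polynomial.C_sub]
    ring
  have hl : ac s i /ₘ (Polynomial.X - Polynomial.C (s l)) = Polynomial.C d *
      (Polynomial.X - Polynomial.C (s j)) := by
    refine dv_unique ?_
    rw [ha]
    simp only [Polynomial.eval_mul, Polynomial.eval_sub, Polynomial.eval_C, Polynomial.eval_X,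
      Polynomial.C_mul, Polynomial.C_sub]
    ring
  rw [Th_one, sum_fin _ h1 h2 h3, hi, hj, hl, ha]
  simp only [Polynomial.derivative_mul, Polynomial.derivative_sub, Polynomial.derivative_X,
    Polynomial.derivative_C, Polynomial.C_mul, Polynomial.C_sub, Polynomial.C_add,
    Polynomial.C_1, show Polynomial.C (2 : ℂ) = 2 from map_ofNat _ 2]
  ring

/-! ### The derivative of the integral -/

theorem inc_inj {s : Fin (2 + 1) → ℂ} (hs : Inc s) : Function.Injective s := by
  intro a b h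
  exact hs.injective (by simp only [h])

theorem deriv_Ic (hD : S_cD) (μ : Fin (2 + 1) → ℝ) (s : Fin (2 + 1) → ℂ) (hμ : Exq μ)
    (hs : Inc s) (i : Fin (2 + 1)) (k : Fin 2) (f : Polynomial ℂ) :
    HasDerivAt (fun T : ℂ => Ic μ (Function.update s i T) k fun x => f.eval x)
      (Ic μ s k fun x => (Thc μ s (ac s i) f).eval x) (s i) := by
  have h1 := hD 2 μ s hμ hs (ac s i) f k
  have h2 : HasDerivAt (fun T : ℂ => T - s i) 1 (s i) := (hasDerivAt_id (s i)).sub_const (s i)
  have h4 := HasDerivAt.comp_of_eq (h := fun T : ℂ => T - s i) (s i) h1 h2 (sub_self (s i)).symm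
  rw [mul_one] at h4
  refine h4.congr_of_eventuallyEq (Filter.Eventually.of_forall fun T => ?_)
  have h5 : Function.update s i T = fun j => s j + (T - s i) * (ac s i).eval (s j) := by
    funext j
    rw [eval_ac s (inc_inj hs) i j]
    by_cases h : j = i
    · subst h
      rw [Function.update_self, if_pos rfl]
      ring
    · rw [Function.update_of_ne h, if_neg h]
      ring
  simp only [Function.comp, h5]

theorem ev_inc (hI : S_cI) (s : Fin (2 + 1) → ℂ) (hs : Inc s) (i : Fin (2 + 1)) :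
    ∀ᶠ T in 𝓝 (s i), Inc (Function.update s i T) := by
  have h1 := (hI.2 2 (fun _ => 0)).1
  have h2 : Continuous fun T : ℂ => Function.update s i T := by
    refine continuous_const.update i continuous_id
  have h3 : Function.update s i (s i) ∈ {s : Fin (2 + 1) → ℂ | Inc s} := by
    rw [Function.update_eq_self]
    exact hs
  exact h2.continuousAt.eventually (h1.mem_nhds h3)

end q1_aux

open q1_aux SEB.cRk1_aux in
theorem tq1 : S_cD → S_cE → S_cI → S_q1 := by
  intro hD hE hI μ s hμ hs i j l h1 h2 h3 k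
  have hJ1 := deriv_Ic hD μ s hμ hs i k 1
  refine ⟨hJ1, ?_⟩
  have hsi := inc_inj hs
  have hx : s i - s j ≠ 0 := sub_ne_zero.2 fun h => h1 (hsi h)
  have hy : s i - s l ≠ 0 := sub_ne_zero.2 fun h => h2 (hsi h)
  have hK0 := deriv_Ic hD μ s hμ hs i k (Polynomial.X - Polynomial.C (s i))
  -- the value of the derivative
  have hKv : (Ic μ s k fun x => (Thc μ s (ac s i)
      (Polynomial.X - Polynomial.C (s i))).eval x) =
      (μ i : ℂ) * Ic μ s k fun x => (1 : Polynomial ℂ).eval x := by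
    have h4 := Th_ac μ s hsi i 1
    rw [mul_one] at h4
    rw [h4, Ic_add hI hμ hs, Ic_C_mul, Ic_C_mul]
    have h5 : (Ic μ s k fun x => (Thc μ s (Q s) 1).eval x) = 0 := hE 2 μ s hμ hs 1 k
    rw [h5, mul_zero, zero_add]
  rw [hKv] at hK0
  set J1 : ℂ → ℂ := fun T => Ic μ (Function.update s i T) k fun x =>
    (1 : Polynomial ℂ).eval x with hJ1d
  set K0 : ℂ → ℂ := fun T => Ic μ (Function.update s i T) k fun x =>
    (Polynomial.X - Polynomial.C (s i)).eval x with hK0d
  have hJv : J1 (s i) = Ic μ s k fun x => (1 : Polynomial ℂ).eval x := by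
    rw [hJ1d]
    simp only [Function.update_eq_self]
  rw [← hJv] at hK0 ⊢
  -- the function
  have hfun : ∀ T, Inc (Function.update s i T) → E1 μ i k (Function.update s i T) =
      ((2 - ((μ i : ℂ) + (μ j + μ l))) * ((T - s j) * (T - s l))⁻¹) *
        (K0 T - (T - s i) * J1 T) +
      (((1 - (μ i : ℂ) - μ l) * (T - s j) + (1 - (μ i : ℂ) - μ j) * (T - s l)) *
        ((T - s j) * (T - s l))⁻¹) * J1 T := by
    intro T hT
    have h4 := Th_fin μ (Function.update s i T) h1 h2 h3
    rw [Function.update_self, Function.update_of_ne h1.symm, Function.update_of_ne h2.symm] at h4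
    rw [E1, h4, Ic_add hI hμ hT, Ic_C_mul, Ic_C_mul]
    have h5 : (Polynomial.X - Polynomial.C T : Polynomial ℂ) =
        (Polynomial.X - Polynomial.C (s i)) + Polynomial.C (-(T - s i)) * 1 := by
      simp only [Polynomial.C_neg, Polynomial.C_sub]
      ring
    have h6 : (Ic μ (Function.update s i T) k fun x =>
        (Polynomial.X - Polynomial.C T : Polynomial ℂ).eval x) = K0 T - (T - s i) * J1 T := by
      rw [h5, Ic_add hI hμ hT, Ic_C_mul]
      simp only [hK0d, hJ1d]
      ring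
    rw [h6]
  have hev : (fun T : ℂ => E1 μ i k (Function.update s i T)) =ᶠ[𝓝 (s i)] fun T =>
      ((2 - ((μ i : ℂ) + (μ j + μ l))) * ((T - s j) * (T - s l))⁻¹) *
        (K0 T - (T - s i) * J1 T) +
      (((1 - (μ i : ℂ) - μ l) * (T - s j) + (1 - (μ i : ℂ) - μ j) * (T - s l)) *
        ((T - s j) * (T - s l))⁻¹) * J1 T := by
    filter_upwards [ev_inc hI s hs i] with T hT
    exact hfun T hT
  have hE1 : E1 μ i k s = ((2 - ((μ i : ℂ) + (μ j + μ l))) * ((s i - s j) * (s i - s l))⁻¹) *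
        (K0 (s i) - (s i - s i) * J1 (s i)) +
      (((1 - (μ i : ℂ) - μ l) * (s i - s j) + (1 - (μ i : ℂ) - μ j) * (s i - s l)) *
        ((s i - s j) * (s i - s l))⁻¹) * J1 (s i) := by
    have h4 := hfun (s i) (by rw [Function.update_eq_self]; exact hs)
    rw [Function.update_eq_self] at h4
    exact h4
  refine HasDerivAt.congr_of_eventuallyEq ?_ hev
  -- the derivative
  have hdj : HasDerivAt (fun T : ℂ => T - s j) 1 (s i) := (hasDerivAt_id (s i)).sub_const (s j)
  have hdl : HasDerivAt (fun T : ℂ => T - s l) 1 (s i) := (hasDerivAt_id (s i)).sub_const (s l)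
  have hdi : HasDerivAt (fun T : ℂ => T - s i) 1 (s i) := (hasDerivAt_id (s i)).sub_const (s i)
  have hinv := (hdj.fun_mul hdl).fun_inv (mul_ne_zero hx hy)
  have hK := hK0.fun_sub (hdi.fun_mul hJ1)
  have hA := (hinv.const_mul (2 - ((μ i : ℂ) + (μ j + μ l)))).fun_mul hK
  have hB := (((hdj.const_mul (1 - (μ i : ℂ) - μ l)).fun_add
    (hdl.const_mul (1 - (μ i : ℂ) - μ j))).fun_mul hinv).fun_mul hJ1
  refine (hA.fun_add hB).congr_deriv ?_
  have hE1' : (Ic μ s k fun x => (Thc μ s (ac s i) 1).eval x) = E1 μ i k s := rfl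
  rw [hE1', Pq, Qr, sum_fin _ h1 h2 h3, hE1]
  field_simp
  ring

end SEK

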