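import Pool.Agent.Lib.SE.K.Spec
import Pool.Agent.Lib.SE.Big.cRk1

/-!
# PROJECT SE-K, module q2: a link preserves the invariant (helper49)
-/

set_option autoImplicit false

open Module MeasureTheory Topology

noncomputable section

namespace SEK

open HC HC.E HC.SE SEB SEQ SEG SEY SEX

namespace q2_aux

/-- Two proportional solutions of second order linear equations: the invariants agree. -/
theorem schw {X X' Y Y' : ℂ → (Fin 2 → ℂ)} {p q p₁ q₁ : ℂ → ℂ} {T₀ dp dp₁ : ℂ}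
    (hX : ∀ᶠ T in 𝓝 T₀, HasDerivAt X (X' T) T)
    (hX' : ∀ᶠ T in 𝓝 T₀, HasDerivAt X' (p T • X' T + q T • X T) T)
    (hY : ∀ᶠ T in 𝓝 T₀, HasDerivAt Y (Y' T) T)
    (hY' : ∀ᶠ T in 𝓝 T₀, HasDerivAt Y' (p₁ T • Y' T + q₁ T • Y T) T)
    (hc : ∀ᶠ T in 𝓝 T₀, ∃ c : ℂ, X T = c • Y T)
    (hX0 : X T₀ ≠ 0) (hY0 : Y T₀ ≠ 0)
    (hli : ∀ᶠ T in 𝓝 T₀, ∀ x y : ℂ, x • Y T + y • Y' T = 0 → x = 0 ∧ y = 0)
    (hp : HasDerivAt p dp T₀) (hp₁ : HasDerivAt p₁ dp₁ T₀) :
    q T₀ + p T₀ ^ 2 / 4 - dp / 2 = q₁ T₀ + p₁ T₀ ^ 2 / 4 - dp₁ / 2 := by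
  obtain ⟨k, hk⟩ : ∃ k, Y T₀ k ≠ 0 := by
    by_contra hcon
    push Not at hcon
    exact hY0 (funext hcon)
  have hYk : ∀ᶠ T in 𝓝 T₀, Y T k ≠ 0 :=
    (hasDerivAt_pi.1 hY.self_of_nhds k).continuousAt.eventually_ne hk
  set c : ℂ → ℂ := fun T => X T k / Y T k with hcd
  set c' : ℂ → ℂ := fun T => (X' T k * Y T k - X T k * Y' T k) / Y T k ^ 2 with hc'd
  have hcder : ∀ᶠ T in 𝓝 T₀, HasDerivAt c (c' T) T := by
    filter_upwards [hX, hY, hYk] with T h1 h2 h3
    exact (hasDerivAt_pi.1 h1 k).fun_div (hasDerivAt_pi.1 h2 k) h3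
  have hc'der : ∀ᶠ T in 𝓝 T₀, HasDerivAt c' (deriv c' T) T := by
    filter_upwards [hX, hY, hX', hY', hYk] with T h1 h2 h3 h4 h5
    have d1 := (hasDerivAt_pi.1 h1 k).differentiableAt
    have d2 := (hasDerivAt_pi.1 h2 k).differentiableAt
    have d3 := (hasDerivAt_pi.1 h3 k).differentiableAt
    have d4 := (hasDerivAt_pi.1 h4 k).differentiableAt
    exact (((d3.fun_mul d2).fun_sub (d1.fun_mul d4)).fun_div (d2.fun_pow 2)
      (pow_ne_zero 2 h5)).hasDerivAt
  have hXc : ∀ᶠ T in 𝓝 T₀, X T = c T • Y T := by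
    filter_upwards [hc, hYk] with T h1 h2
    obtain ⟨e, he⟩ := h1
    have h3 : c T = e := by
      simp only [hcd, he, Pi.smul_apply, smul_eq_mul]
      exact mul_div_cancel_right₀ e h2
    rw [h3]
    exact he
  have hX'c : ∀ᶠ T in 𝓝 T₀, X' T = c T • Y' T + c' T • Y T := by
    filter_upwards [hXc.eventually_nhds, hX, hY, hcder] with T h1 h2 h3 h4
    have h5 : HasDerivAt (fun T => c T • Y T) (c T • Y' T + c' T • Y T) T := h4.fun_smul h3
    exact h2.unique (h5.congr_of_eventuallyEq h1)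
  have hX''c : ∀ᶠ T in 𝓝 T₀, p T • X' T + q T • X T =
      (c T • (p₁ T • Y' T + q₁ T • Y T) + c' T • Y' T) + (c' T • Y' T + deriv c' T • Y T) := by
    filter_upwards [hX'c.eventually_nhds, hX', hY, hY', hcder, hc'der] with T h1 h2 h3 h4 h5 h6
    have h7 : HasDerivAt (fun T => c T • Y' T + c' T • Y T)
        ((c T • (p₁ T • Y' T + q₁ T • Y T) + c' T • Y' T) +
          (c' T • Y' T + deriv c' T • Y T)) T := (h5.fun_smul h4).fun_add (h6.fun_smul h3)
    exact h2.unique (h7.congr_of_eventuallyEq h1)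
  have hrel : ∀ᶠ T in 𝓝 T₀, p T * c' T + q T * c T - deriv c' T - c T * q₁ T = 0 ∧
      p T * c T - 2 * c' T - c T * p₁ T = 0 := by
    filter_upwards [hli, hXc, hX'c, hX''c] with T h1 h2 h3 h4
    refine h1 _ _ ?_
    rw [h2, h3] at h4
    have h5 : (p T * c' T + q T * c T - deriv c' T - c T * q₁ T) • Y T +
        (p T * c T - 2 * c' T - c T * p₁ T) • Y' T =
        (p T • (c T • Y' T + c' T • Y T) + q T • c T • Y T) -
          ((c T • (p₁ T • Y' T + q₁ T • Y T) + c' T • Y' T) +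
            (c' T • Y' T + deriv c' T • Y T)) := by module
    rw [h5, h4, sub_self]
  have hc'e : c' =ᶠ[𝓝 T₀] fun T => (p T - p₁ T) * c T / 2 := by
    filter_upwards [hrel] with T h1
    linear_combination (-1 / 2) * h1.2
  have hdd : deriv c' T₀ = ((dp - dp₁) * c T₀ + (p T₀ - p₁ T₀) * c' T₀) / 2 := by
    have h1 : HasDerivAt (fun T => (p T - p₁ T) * c T / 2)
        (((dp - dp₁) * c T₀ + (p T₀ - p₁ T₀) * c' T₀) / 2) T₀ :=
      ((hp.fun_sub hp₁).fun_mul hcder.self_of_nhds).div_const 2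
    exact (h1.congr_of_eventuallyEq hc'e).deriv
  have hc0 : c T₀ ≠ 0 := by
    intro h0
    apply hX0
    rw [hXc.self_of_nhds, h0, zero_smul]
  obtain ⟨e1, e2⟩ := hrel.self_of_nhds
  have key : c T₀ * (q T₀ + p T₀ ^ 2 / 4 - dp / 2) =
      c T₀ * (q₁ T₀ + p₁ T₀ ^ 2 / 4 - dp₁ / 2) := by
    linear_combination e1 + hdd + ((p T₀ + p₁ T₀) / 4) * e2
  exact mul_left_cancel₀ hc0 key

/-- The coefficient of `X` of `Thc (ac s i) 1`. -/
theorem coeff_one {μ : Fin (2 + 1) → ℝ} {s : Fin (2 + 1) → ℂ} (hs : Function.Injective s)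
    (hμ : ∀ n : ℤ, ∑ j, μ j ≠ n) (i : Fin (2 + 1)) :
    (Thc μ s (cRk1_aux.ac s i) 1).coeff 1 ≠ 0 := by
  have hcc : cRk1_aux.cc s i ≠ 0 := by
    refine inv_ne_zero (Finset.prod_ne_zero_iff.2 fun l hl => ?_)
    rw [sub_ne_zero]
    exact fun h => (Finset.mem_erase.1 hl).1 (hs h).symm
  have hmon : (∏ l ∈ Finset.univ.erase i, (Polynomial.X - Polynomial.C (s l))).Monic :=
    Polynomial.monic_prod_of_monic _ _ fun l _ => Polynomial.monic_X_sub_C (s l)
  have hnd : (∏ l ∈ Finset.univ.erase i, (Polynomial.X - Polynomial.C (s l))).natDegree = 2 := by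
    rw [Polynomial.natDegree_prod_of_monic _ _ fun l _ => Polynomial.monic_X_sub_C (s l)]
    simp only [Polynomial.natDegree_X_sub_C]
    rw [Finset.sum_const, Finset.card_erase_of_mem (Finset.mem_univ i), Finset.card_univ,
      Fintype.card_fin]
    simp
  have hnd2 : (cRk1_aux.ac s i).natDegree = 1 + 1 := by
    rw [cRk1_aux.ac, Polynomial.natDegree_C_mul hcc, hnd]
  have hco : (cRk1_aux.ac s i).coeff (1 + 1) = cRk1_aux.cc s i := by
    rw [cRk1_aux.ac, Polynomial.coeff_C_mul]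
    have h1 := hmon.coeff_natDegree
    rw [hnd] at h1
    rw [h1, mul_one]
  rw [cRk1_aux.Th_one_coeff μ s hnd2, hco]
  refine mul_ne_zero ?_ hcc
  intro h0
  apply hμ 2
  have h1 : ((∑ j, μ j : ℝ) : ℂ) = ((2 : ℝ) : ℂ) := by
    rw [Complex.ofReal_sum]
    push_cast
    linear_combination -h0
  have h2 := Complex.ofReal_injective h1
  rw [h2]
  norm_num

/-- The degree of `Thc (ac s i) 1`. -/
theorem deg_le (μ : Fin (2 + 1) → ℝ) (s : Fin (2 + 1) → ℂ) (i : Fin (2 + 1)) :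
    (Thc μ s (cRk1_aux.ac s i) 1).natDegree ≤ 1 := by
  have h0 := cRk1_aux.natDegree_ac s i
  rw [cRk1_aux.Th_one]
  refine (Polynomial.natDegree_sub_le _ _).trans (max_le ?_ ?_)
  · exact (Polynomial.natDegree_derivative_le _).trans (by omega)
  · refine Polynomial.natDegree_sum_le_of_forall_le _ _ fun l _ => ?_
    refine (Polynomial.natDegree_C_mul_le _ _).trans ?_
    rw [Polynomial.natDegree_divByMonic _ (Polynomial.monic_X_sub_C _),
      Polynomial.natDegree_X_sub_C]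
    omega

/-- The equations along a coordinate line. -/
theorem line (hq1 : S_q1) (hKap : S_cKap) {m : ℕ} {b : Fin (2 + 1) → ℕ} {u : ℕ}
    {s : Fin (2 + 1) → ℂ} (hA : Admc m b u s) {i j l : Fin (2 + 1)} (hij : i ≠ j) (hil : i ≠ l)
    (hjl : j ≠ l) :
    HasDerivAt (fun T : ℂ => Pc m b u (Function.update s i T) 1)
      (Pc m b u s (Thc (mu m b u) s (cRk1_aux.ac s i) 1)) (s i) ∧
    HasDerivAt (fun T : ℂ => Pc m b u (Function.update s i T)
      (Thc (mu m b u) (Function.update s i T) (cRk1_aux.ac (Function.update s i T) i) 1))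
      (Pq (mu m b u) s i j l • Pc m b u s (Thc (mu m b u) s (cRk1_aux.ac s i) 1) +
        Qr (mu m b u) s i j l • Pc m b u s 1) (s i) := by
  have hE := (hKap m 2 b u s hA).2.1
  refine ⟨hasDerivAt_pi.2 fun k => ?_, hasDerivAt_pi.2 fun k => ?_⟩
  · exact (hq1 (mu m b u) s hE hA.1 i j l hij hil hjl k).1.const_mul (kap m b u k)
  · have h1 := (hq1 (mu m b u) s hE hA.1 i j l hij hil hjl k).2.const_mul (kap m b u k)
    have h2 : kap m b u k * (Pq (mu m b u) s i j l * E1 (mu m b u) i k s +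
        Qr (mu m b u) s i j l * Ic (mu m b u) s k fun x => (1 : Polynomial ℂ).eval x) =
        (Pq (mu m b u) s i j l • Pc m b u s (Thc (mu m b u) s (cRk1_aux.ac s i) 1) +
        Qr (mu m b u) s i j l • Pc m b u s 1) k := by
      simp only [Pi.add_apply, Pi.smul_apply, smul_eq_mul, Pc, E1]
      ring
    rw [← h2]
    exact h1

/-- The same at all points of the line. -/
theorem line' (hq1 : S_q1) (hKap : S_cKap) {m : ℕ} {b : Fin (2 + 1) → ℕ} {u : ℕ}
    {s : Fin (2 + 1) → ℂ} {i j l : Fin (2 + 1)} (hij : i ≠ j) (hil : i ≠ l)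
    (hjl : j ≠ l) (T : ℂ) (hA : Admc m b u (Function.update s i T)) :
    HasDerivAt (fun T : ℂ => Pc m b u (Function.update s i T) 1)
      (Pc m b u (Function.update s i T) (Thc (mu m b u) (Function.update s i T)
        (cRk1_aux.ac (Function.update s i T) i) 1)) T ∧
    HasDerivAt (fun T : ℂ => Pc m b u (Function.update s i T)
      (Thc (mu m b u) (Function.update s i T) (cRk1_aux.ac (Function.update s i T) i) 1))
      (Pq (mu m b u) (Function.update s i T) i j l • Pc m b u (Function.update s i T)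
        (Thc (mu m b u) (Function.update s i T) (cRk1_aux.ac (Function.update s i T) i) 1) +
        Qr (mu m b u) (Function.update s i T) i j l • Pc m b u (Function.update s i T) 1) T := by
  have h := line hq1 hKap hA hij hil hjl
  simp only [Function.update_idem, Function.update_self] at h
  exact h

/-- The derivative of the first coefficient. -/
theorem deriv_Pq (μ : Fin (2 + 1) → ℝ) {s : Fin (2 + 1) → ℂ} {i j l : Fin (2 + 1)}
    (hij : i ≠ j) (hil : i ≠ l) (h1 : s i - s j ≠ 0) (h2 : s i - s l ≠ 0) :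
    HasDerivAt (fun T : ℂ => Pq μ (Function.update s i T) i j l)
      (((μ i : ℂ) + μ j) / (s i - s j) ^ 2 + ((μ i : ℂ) + μ l) / (s i - s l) ^ 2) (s i) := by
  have h3 : (fun T : ℂ => Pq μ (Function.update s i T) i j l) = fun T : ℂ =>
      -((μ i : ℂ) + μ j) / (T - s j) - ((μ i : ℂ) + μ l) / (T - s l) := by
    funext T
    simp only [Pq, Function.update_self, Function.update_of_ne hij.symm,
      Function.update_of_ne hil.symm]
  rw [h3]
  have d1 : HasDerivAt (fun T : ℂ => T - s j) 1 (s i) := (hasDerivAt_id (s i)).sub_const (s j)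
  have d2 : HasDerivAt (fun T : ℂ => T - s l) 1 (s i) := (hasDerivAt_id (s i)).sub_const (s l)
  have d3 := ((hasDerivAt_const (s i) (-((μ i : ℂ) + μ j))).fun_div d1 h1).fun_sub
    ((hasDerivAt_const (s i) ((μ i : ℂ) + μ l)).fun_div d2 h2)
  refine d3.congr_deriv ?_
  ring

end q2_aux

open q2_aux in
/-- A LINK PRESERVES THE INVARIANT. -/
theorem tq2 : S_q1 → S_cKap → S_cPv → S_cJx → S_q2 := by
  intro hq1 hKap hPv hJx m m' b b' u v U hU hUA hUN θ hθ hLk hp hpv s hs i j l hij hil hjl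
  obtain ⟨hAu, hNu, hAv, hNv⟩ := hUA s hs
  have hinj : Function.Injective s := hAu.2.1.2.1
  set σ : ℂ → Fin (2 + 1) → ℂ := fun T => Function.update s i T with hσ
  have hσ0 : σ (s i) = s := Function.update_eq_self i s
  have hσc : Continuous σ := continuous_const.update i continuous_id
  have hev : ∀ᶠ T in 𝓝 (s i), σ T ∈ U := by
    refine hσc.continuousAt.eventually_mem ?_
    rw [hσ0]
    exact hU.mem_nhds hs
  have hr0 : (0 : WithBot ℕ) < ((2 : ℕ) : WithBot ℕ) := by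
    exact_mod_cast (by norm_num : (0 : ℕ) < 2)
  have h1d : (1 : Polynomial ℂ).degree < (sg m 2 b u : WithBot ℕ) := by
    rw [hp, Polynomial.degree_one]
    exact_mod_cast zero_lt_one
  -- injectivity of the period vectors
  have hinjv : ∀ s' ∈ U, ∀ g : Polynomial ℂ, g.degree < ((2 : ℕ) : WithBot ℕ) →
      Pc m' b' v s' g = 0 → g = 0 := by
    intro s' hs' g hg h0
    refine hUN s' hs' g hg fun k => ?_
    have h1 : kap m' b' v k * Ic (mu m' b' v) s' k (fun x => g.eval x) = 0 := congrFun h0 k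
    exact (mul_eq_zero.1 h1).resolve_left
      ((hKap m' 2 b' v s' (hUA s' hs').2.2.1).2.2.2 k).1
  -- the period vectors are proportional
  have hprop : ∀ s' ∈ U, ∃ c : ℂ, θ (Pc m b u s' 1) = c • Pc m' b' v s' 1 := by
    intro s' hs'
    obtain ⟨aAu, aNu, aAv, aNv⟩ := hUA s' hs'
    obtain ⟨J, hJ, -⟩ := hJx m 2 b u s' aAu aNu
    obtain ⟨J', hJ', -, -, hplus, -⟩ := hJx m' 2 b' v s' aAv aNv
    have h1 := hLk s' hs' J J' hJ hJ'
    have h2 : J' (θ (Pc m b u s' 1)) = Complex.I • θ (Pc m b u s' 1) := by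
      have h3 : (θ * J) (Pc m b u s' 1) = (J' * θ) (Pc m b u s' 1) := by rw [h1]
      rw [Module.End.mul_apply, Module.End.mul_apply, hJ.1 1 h1d, map_smul] at h3
      exact h3.symm
    obtain ⟨f, hf, hfe⟩ := (hplus _).1 h2
    rw [hpv] at hf
    have hf0 : f = Polynomial.C (f.coeff 0) * 1 := by
      rw [mul_one]
      refine Polynomial.eq_C_of_degree_le_zero ?_
      refine Polynomial.degree_le_of_natDegree_le ?_
      by_cases hfz : f = 0
      · rw [hfz, Polynomial.natDegree_zero]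
        exact le_rfl
      · have h4 := (Polynomial.natDegree_lt_iff_degree_lt hfz).2 hf
        omega
    refine ⟨f.coeff 0, ?_⟩
    rw [hfe, hf0, (hPv m' 2 b' v s' aAv).2]
    simp
  have hX : ∀ᶠ T in 𝓝 (s i), HasDerivAt (fun T => θ (Pc m b u (σ T) 1))
      (θ (Pc m b u (σ T) (Thc (mu m b u) (σ T) (cRk1_aux.ac (σ T) i) 1))) T := by
    filter_upwards [hev] with T hT
    exact (LinearMap.toContinuousLinearMap θ).hasFDerivAt.comp_hasDerivAt T
      (line' hq1 hKap hij hil hjl T (hUA _ hT).1).1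
  have hX' : ∀ᶠ T in 𝓝 (s i), HasDerivAt
      (fun T => θ (Pc m b u (σ T) (Thc (mu m b u) (σ T) (cRk1_aux.ac (σ T) i) 1)))
      (Pq (mu m b u) (σ T) i j l •
        θ (Pc m b u (σ T) (Thc (mu m b u) (σ T) (cRk1_aux.ac (σ T) i) 1)) +
        Qr (mu m b u) (σ T) i j l • θ (Pc m b u (σ T) 1)) T := by
    filter_upwards [hev] with T hT
    have h1 := (LinearMap.toContinuousLinearMap θ).hasFDerivAt.comp_hasDerivAt T
      (line' hq1 hKap hij hil hjl T (hUA _ hT).1).2
    rw [map_add, map_smul, map_smul] at h1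
    exact h1
  have hY : ∀ᶠ T in 𝓝 (s i), HasDerivAt (fun T => Pc m' b' v (σ T) 1)
      (Pc m' b' v (σ T) (Thc (mu m' b' v) (σ T) (cRk1_aux.ac (σ T) i) 1)) T := by
    filter_upwards [hev] with T hT
    exact (line' hq1 hKap hij hil hjl T (hUA _ hT).2.2.1).1
  have hY' : ∀ᶠ T in 𝓝 (s i), HasDerivAt
      (fun T => Pc m' b' v (σ T) (Thc (mu m' b' v) (σ T) (cRk1_aux.ac (σ T) i) 1))
      (Pq (mu m' b' v) (σ T) i j l •
        Pc m' b' v (σ T) (Thc (mu m' b' v) (σ T) (cRk1_aux.ac (σ T) i) 1) +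
        Qr (mu m' b' v) (σ T) i j l • Pc m' b' v (σ T) 1) T := by
    filter_upwards [hev] with T hT
    exact (line' hq1 hKap hij hil hjl T (hUA _ hT).2.2.1).2
  have hc : ∀ᶠ T in 𝓝 (s i), ∃ c : ℂ, θ (Pc m b u (σ T) 1) = c • Pc m' b' v (σ T) 1 := by
    filter_upwards [hev] with T hT
    exact hprop _ hT
  have hX0 : θ (Pc m b u (σ (s i)) 1) ≠ 0 := by
    rw [hσ0]
    intro h0
    have h1 : Pc m b u s 1 = 0 := hθ (by rw [h0, map_zero])
    have h2 : Pc m b (m - u) s 0 = 0 := by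
      funext k
      simp [Pc, Ic]
    have h3 := hNu 1 0 h1d (by rw [Polynomial.degree_zero]; exact WithBot.bot_lt_coe _)
      (by rw [h1, h2, star_zero, add_zero])
    exact one_ne_zero h3.1
  have hY0 : Pc m' b' v (σ (s i)) 1 ≠ 0 := by
    rw [hσ0]
    intro h0
    exact one_ne_zero (hinjv s hs 1 (by rw [Polynomial.degree_one]; exact hr0) h0)
  have hli : ∀ᶠ T in 𝓝 (s i), ∀ x y : ℂ, x • Pc m' b' v (σ T) 1 +
      y • Pc m' b' v (σ T) (Thc (mu m' b' v) (σ T) (cRk1_aux.ac (σ T) i) 1) = 0 →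
      x = 0 ∧ y = 0 := by
    filter_upwards [hev] with T hT x y hxy
    obtain ⟨-, -, aAv, -⟩ := hUA _ hT
    obtain ⟨hadd, hsm⟩ := hPv m' 2 b' v (σ T) aAv
    have hmu := (hKap m' 2 b' v (σ T) aAv).2.2.1
    have hco := coeff_one (μ := mu m' b' v) (s := σ T) aAv.2.1.2.1 hmu i
    have hnd := deg_le (mu m' b' v) (σ T) i
    set P := Thc (mu m' b' v) (σ T) (cRk1_aux.ac (σ T) i) 1 with hP
    have h1 : Pc m' b' v (σ T) (Polynomial.C x * 1 + Polynomial.C y * P) = 0 := by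
      rw [hadd, hsm, hsm]
      exact hxy
    have h2 : (Polynomial.C x * 1 + Polynomial.C y * P).degree < ((2 : ℕ) : WithBot ℕ) := by
      refine lt_of_le_of_lt (Polynomial.degree_le_of_natDegree_le (n := 1) ?_) ?_
      · refine (Polynomial.natDegree_add_le _ _).trans (max_le ?_ ?_)
        · rw [mul_one, Polynomial.natDegree_C]
          omega
        · exact (Polynomial.natDegree_C_mul_le _ _).trans hnd
      · exact_mod_cast one_lt_two
    have h3 := hinjv _ hT _ h2 h1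
    have h4 := congrArg (fun g : Polynomial ℂ => g.coeff 1) h3
    simp only [mul_one, Polynomial.coeff_add, Polynomial.coeff_C_mul, Polynomial.coeff_zero,
      Polynomial.coeff_C_succ, zero_add] at h4
    have h5 : y = 0 := (mul_eq_zero.1 h4).resolve_right hco
    rw [h5, Polynomial.C_0, zero_mul, add_zero, mul_one] at h3
    exact ⟨Polynomial.C_eq_zero.1 h3, h5⟩
  have hsij : s i - s j ≠ 0 := sub_ne_zero.2 fun h => hij (hinj h)
  have hsil : s i - s l ≠ 0 := sub_ne_zero.2 fun h => hil (hinj h)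
  have key := schw hX hX' hY hY' hc hX0 hY0 hli (deriv_Pq (mu m b u) hij hil hsij hsil)
    (deriv_Pq (mu m' b' v) hij hil hsij hsil)
  rw [hσ0] at key
  have hIv : ∀ μ : Fin (2 + 1) → ℝ, Iv μ s i j l = Qr μ s i j l + Pq μ s i j l ^ 2 / 4 -
      (((μ i : ℂ) + μ j) / (s i - s j) ^ 2 + ((μ i : ℂ) + μ l) / (s i - s l) ^ 2) / 2 := by
    intro μ
    rw [Iv, Qr, Pq]
    field_simp
    ring
  rw [hIv, hIv, key]

end SEK
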