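import Pool.Agent.Lib.SE.K.Spec

/-!
# PROJECT SE-K, module q3: rational functions
-/

set_option autoImplicit false

open Module MeasureTheory Topology

noncomputable section

namespace SEK

open HC HC.E HC.SE SEB SEQ SEG SEY SEX

namespace q3_aux

lemma clear_den {x y A B G A' B' G' : ℂ} (hx : x ≠ 0) (hy : y ≠ 0)
    (h : A / (4 * x ^ 2) + B / (4 * y ^ 2) + G / (x * y) = A' / (4 * x ^ 2) + B' / (4 * y ^ 2) + G' / (x * y)) :
    (A - A') * y ^ 2 + (B - B') * x ^ 2 + 4 * (G - G') * x * y = 0 := by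
  field_simp at h
  linear_combination h

lemma third : ∀ i j : Fin (2 + 1), i ≠ j → ∃ l : Fin (2 + 1), i ≠ l ∧ j ≠ l := by decide

end q3_aux

open q3_aux in
theorem tq3 : S_q3 := by
  intro μ μ' U hU hne hinj hIv i j hij
  obtain ⟨s, hs⟩ := hne
  obtain ⟨l, hil, hjl⟩ := third i j hij
  have hcont : Continuous fun T : ℂ => Function.update s l T := continuous_const.update l continuous_id
  have hop : IsOpen ((fun T : ℂ => Function.update s l T) ⁻¹' U) := hU.preimage hcont
  have hmem : s l ∈ (fun T : ℂ => Function.update s l T) ⁻¹' U := by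
    show Function.update s l (s l) ∈ U
    rw [Function.update_eq_self]
    exact hs
  obtain ⟨δ, hδ, hball⟩ := Metric.isOpen_iff.1 hop _ hmem
  set ε : ℝ := δ / 4 with hε
  have hε0 : 0 < ε := by positivity
  have hxne : s i - s j ≠ 0 := sub_ne_zero.2 fun h => hij (hinj s hs h)
  -- the quadratic relation at the three points
  have key : ∀ t : ℝ, 0 ≤ t → t ≤ 3 →
      ((((μ i : ℂ) + μ j) ^ 2 - 2 * ((μ i : ℂ) + μ j)) - (((μ' i : ℂ) + μ' j) ^ 2 - 2 * ((μ' i : ℂ) + μ' j))) *
        (s i - (s l + t * ε)) ^ 2 +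
      ((((μ i : ℂ) + μ l) ^ 2 - 2 * ((μ i : ℂ) + μ l)) - (((μ' i : ℂ) + μ' l) ^ 2 - 2 * ((μ' i : ℂ) + μ' l))) *
        (s i - s j) ^ 2 +
      4 * ((((μ i : ℂ) + μ j) * ((μ i : ℂ) + μ l) / 2 + (μ i : ℂ) * (1 - ∑ n, (μ n : ℂ))) -
        (((μ' i : ℂ) + μ' j) * ((μ' i : ℂ) + μ' l) / 2 + (μ' i : ℂ) * (1 - ∑ n, (μ' n : ℂ)))) * (s i - s j) *
        (s i - (s l + t * ε)) = 0 := by
    intro t ht0 ht3
    have hT : Function.update s l (s l + t * ε) ∈ U := by
      refine hball ?_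
      rw [Metric.mem_ball, dist_eq_norm, add_sub_cancel_left, ← Complex.ofReal_mul, Complex.norm_real,
        Real.norm_of_nonneg (by positivity)]
      rw [hε]
      nlinarith
    have h1 := hIv _ hT i j l hij hil hjl
    have hy : s i - (s l + t * ε) ≠ 0 := by
      refine sub_ne_zero.2 fun h => hil ?_
      refine hinj _ hT ?_
      rw [Function.update_of_ne hil, Function.update_self]
      exact h
    unfold Iv at h1
    rw [Function.update_of_ne hil, Function.update_of_ne hjl, Function.update_self] at h1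
    exact clear_den hxne hy h1
  have k1 := key 1 (by norm_num) (by norm_num)
  have k2 := key 2 (by norm_num) (by norm_num)
  have k3 := key 3 (by norm_num) (by norm_num)
  push_cast at k1 k2 k3
  have hA : ((((μ i : ℂ) + μ j) ^ 2 - 2 * ((μ i : ℂ) + μ j)) - (((μ' i : ℂ) + μ' j) ^ 2 - 2 * ((μ' i : ℂ) + μ' j))) *
      (2 * (ε : ℂ) ^ 2) = 0 := by
    linear_combination k1 - 2 * k2 + k3
  have hε1 : (2 * (ε : ℂ) ^ 2) ≠ 0 := by
    have h1 : (ε : ℂ) ≠ 0 := by exact_mod_cast hε0.ne'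
    exact mul_ne_zero two_ne_zero (pow_ne_zero _ h1)
  have hB := (mul_eq_zero.1 hA).resolve_right hε1
  have hC : (((μ i + μ j) ^ 2 - 2 * (μ i + μ j)) - ((μ' i + μ' j) ^ 2 - 2 * (μ' i + μ' j)) : ℝ) = 0 := by
    exact_mod_cast hB
  linear_combination hC

end SEK
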