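import Pool.Agent.Lib.SE.K.Spec

/-!
# PROJECT SE-K, module q4: arithmetic of linked exponents, four branch points (helper85)
-/

set_option autoImplicit false

open Module MeasureTheory Topology

noncomputable section

namespace SEK

open HC HC.E HC.SE SEB SEQ SEG SEY SEX

namespace q4_aux

/-- the four exponents -/
def e4 (m : ℕ) (b : Fin (2 + 1) → ℕ) : Fin 4 → ℕ :=
  ![b 0, b 1, b 2, (m - 1) * (b 0 + b 1 + b 2)]

/-- THE KLEIN GROUP -/
theorem klein (A B : Fin 4 → ℤ) (M : ℤ) (hA : A 0 + A 1 + A 2 + A 3 = 2 * M)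
    (hB : B 0 + B 1 + B 2 + B 3 = 2 * M) (h01 : (A 0 + A 1 - M) ^ 2 = (B 0 + B 1 - M) ^ 2)
    (h02 : (A 0 + A 2 - M) ^ 2 = (B 0 + B 2 - M) ^ 2)
    (h12 : (A 1 + A 2 - M) ^ 2 = (B 1 + B 2 - M) ^ 2) :
    ∃ σ : Fin 4 → Fin 4, Function.Involutive σ ∧
      ((∀ j, B j = A (σ j)) ∨ ∀ j, B j = M - A (σ j)) := by
  have i0 : Function.Involutive (![0, 1, 2, 3] : Fin 4 → Fin 4) := by
    intro x; fin_cases x <;> rfl
  have i1 : Function.Involutive (![1, 0, 3, 2] : Fin 4 → Fin 4) := by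
    intro x; fin_cases x <;> rfl
  have i2 : Function.Involutive (![2, 3, 0, 1] : Fin 4 → Fin 4) := by
    intro x; fin_cases x <;> rfl
  have i3 : Function.Involutive (![3, 2, 1, 0] : Fin 4 → Fin 4) := by
    intro x; fin_cases x <;> rfl
  rcases sq_eq_sq_iff_eq_or_eq_neg.1 h01 with a | a <;>
  rcases sq_eq_sq_iff_eq_or_eq_neg.1 h02 with b | b <;>
  rcases sq_eq_sq_iff_eq_or_eq_neg.1 h12 with c | c
  · exact ⟨_, i0, Or.inl fun j => by
      fin_cases j
      · show B 0 = A 0; linarith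
      · show B 1 = A 1; linarith
      · show B 2 = A 2; linarith
      · show B 3 = A 3; linarith⟩
  · exact ⟨_, i3, Or.inr fun j => by
      fin_cases j
      · show B 0 = M - A 3; linarith
      · show B 1 = M - A 2; linarith
      · show B 2 = M - A 1; linarith
      · show B 3 = M - A 0; linarith⟩
  · exact ⟨_, i2, Or.inr fun j => by
      fin_cases j
      · show B 0 = M - A 2; linarith
      · show B 1 = M - A 3; linarith
      · show B 2 = M - A 0; linarith
      · show B 3 = M - A 1; linarith⟩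
  · exact ⟨_, i1, Or.inl fun j => by
      fin_cases j
      · show B 0 = A 1; linarith
      · show B 1 = A 0; linarith
      · show B 2 = A 3; linarith
      · show B 3 = A 2; linarith⟩
  · exact ⟨_, i1, Or.inr fun j => by
      fin_cases j
      · show B 0 = M - A 1; linarith
      · show B 1 = M - A 0; linarith
      · show B 2 = M - A 3; linarith
      · show B 3 = M - A 2; linarith⟩
  · exact ⟨_, i2, Or.inl fun j => by
      fin_cases j
      · show B 0 = A 2; linarith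
      · show B 1 = A 3; linarith
      · show B 2 = A 0; linarith
      · show B 3 = A 1; linarith⟩
  · exact ⟨_, i3, Or.inl fun j => by
      fin_cases j
      · show B 0 = A 3; linarith
      · show B 1 = A 2; linarith
      · show B 2 = A 1; linarith
      · show B 3 = A 0; linarith⟩
  · exact ⟨_, i0, Or.inr fun j => by
      fin_cases j
      · show B 0 = M - A 0; linarith
      · show B 1 = M - A 1; linarith
      · show B 2 = M - A 2; linarith
      · show B 3 = M - A 3; linarith⟩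

/-- the signature in terms of the sum of the three residues -/
theorem sg_eq (m : ℕ) (b : Fin (2 + 1) → ℕ) (x : ℕ) :
    sg m 2 b x = (if (x * b 0) % m + (x * b 1) % m + (x * b 2) % m < 2 * m then 1 else 0) +
      (if m + ((x * b 0) % m + (x * b 1) % m + (x * b 2) % m) < 2 * m then 1 else 0) := by
  unfold sg
  rw [Finset.card_filter, Fin.sum_univ_two]
  have h3 : (∑ j : Fin (2 + 1), (x * b j) % m) =
      (x * b 0) % m + (x * b 1) % m + (x * b 2) % m := Fin.sum_univ_three _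
  rw [h3]
  simp only [Fin.val_zero, Fin.val_one, mul_zero, zero_add, mul_one, mul_comm m 2]

/-- no residue is zero -/
theorem pos {m : ℕ} {s : Fin (2 + 1) → ℂ} {b : Fin (2 + 1) → ℕ} (hc : IsCov m s b) {x : ℕ}
    (hx : x.Coprime m) (j : Fin 4) : 0 < (x * e4 m b j) % m ∧ (x * e4 m b j) % m < m := by
  obtain ⟨hm3, -, hb, hs, -⟩ := hc
  have hm : 0 < m := by omega
  refine ⟨?_, Nat.mod_lt _ hm⟩
  rw [Nat.pos_iff_ne_zero]
  intro h
  have h1 : m ∣ x * e4 m b j := Nat.dvd_of_mod_eq_zero h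
  have h2 : m ∣ e4 m b j := (Nat.Coprime.symm hx).dvd_of_dvd_mul_left h1
  have hs' : ¬ m ∣ b 0 + b 1 + b 2 := by
    have e : (∑ j : Fin (2 + 1), b j) = b 0 + b 1 + b 2 := Fin.sum_univ_three _
    rwa [e] at hs
  have h3 : ∀ j : Fin 4, ¬ m ∣ e4 m b j := by
    intro j
    fin_cases j
    · exact hb 0
    · exact hb 1
    · exact hb 2
    · show ¬ m ∣ (m - 1) * (b 0 + b 1 + b 2)
      intro h4
      have hcop : Nat.Coprime m (m - 1) := by
        have : Nat.Coprime (m - 1 + 1) (m - 1) := by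
          rw [Nat.coprime_self_add_left]
          exact Nat.coprime_one_left _
        rwa [Nat.sub_add_cancel (by omega : 1 ≤ m)] at this
      exact hs' (hcop.dvd_of_dvd_mul_left h4)
  exact h3 j h2

/-- the sum of the four residues is a multiple of `m` -/
theorem dvd_sum {m : ℕ} (hm : 0 < m) (b : Fin (2 + 1) → ℕ) (x : ℕ) :
    m ∣ (x * e4 m b 0) % m + (x * e4 m b 1) % m + (x * e4 m b 2) % m + (x * e4 m b 3) % m := by
  have h1 : (x * e4 m b 0) % m + (x * e4 m b 1) % m + (x * e4 m b 2) % m + (x * e4 m b 3) % m ≡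
      x * e4 m b 0 + x * e4 m b 1 + x * e4 m b 2 + x * e4 m b 3 [MOD m] :=
    (((Nat.mod_modEq _ _).add (Nat.mod_modEq _ _)).add (Nat.mod_modEq _ _)).add
      (Nat.mod_modEq _ _)
  have h2 : x * e4 m b 0 + x * e4 m b 1 + x * e4 m b 2 + x * e4 m b 3 =
      m * (x * (b 0 + b 1 + b 2)) := by
    show x * b 0 + x * b 1 + x * b 2 + x * ((m - 1) * (b 0 + b 1 + b 2)) = _
    obtain ⟨k, rfl⟩ : ∃ k, m = k + 1 := ⟨m - 1, by omega⟩
    rw [Nat.add_sub_cancel]
    ring
  rw [h2] at h1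
  exact (Nat.modEq_zero_iff_dvd.1 (h1.trans (Nat.modEq_zero_iff_dvd.2 (Dvd.intro _ rfl))))

/-- the signature in terms of the sum of the four residues -/
theorem sg_sum {m : ℕ} {s : Fin (2 + 1) → ℂ} {b : Fin (2 + 1) → ℕ} (hc : IsCov m s b) {x : ℕ}
    (hx : x.Coprime m) :
    sg m 2 b x * m + ((x * e4 m b 0) % m + (x * e4 m b 1) % m + (x * e4 m b 2) % m +
      (x * e4 m b 3) % m) = 3 * m := by
  have p0 := pos hc hx 0
  have p1 := pos hc hx 1
  have p2 := pos hc hx 2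
  have p3 := pos hc hx 3
  have hm : 0 < m := by omega
  obtain ⟨t, ht⟩ := dvd_sum hm b x
  rw [sg_eq]
  have e0 : e4 m b 0 = b 0 := rfl
  have e1 : e4 m b 1 = b 1 := rfl
  have e2 : e4 m b 2 = b 2 := rfl
  rw [e0] at p0 ht ⊢
  rw [e1] at p1 ht ⊢
  rw [e2] at p2 ht ⊢
  set R0 := (x * b 0) % m
  set R1 := (x * b 1) % m
  set R2 := (x * b 2) % m
  set R3 := (x * e4 m b 3) % m
  have t1 : 0 < t := by
    rcases Nat.eq_zero_or_pos t with h | h
    · rw [h, mul_zero] at ht; omega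
    · exact h
  have t4 : t < 4 := by
    by_contra h
    have : m * 4 ≤ m * t := Nat.mul_le_mul_left m (by omega)
    omega
  have ht' : t = 1 ∨ t = 2 ∨ t = 3 := by omega
  rcases ht' with h | h | h
  · rw [h] at ht
    rw [if_pos (by omega), if_pos (by omega)]
    omega
  · rw [h] at ht
    rw [if_pos (by omega), if_neg (by omega)]
    omega
  · rw [h] at ht
    rw [if_neg (by omega), if_neg (by omega)]
    omega

/-- the real equation as an equation of integers -/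
theorem real_int {m m' : ℕ} (hm : 0 < m) (hm' : 0 < m') {b b' : Fin (2 + 1) → ℕ} {u v : ℕ}
    {i j : Fin (2 + 1)}
    (h : (1 - mu m b u i - mu m b u j) ^ 2 = (1 - mu m' b' v i - mu m' b' v j) ^ 2) :
    ((((u * b i) % m : ℕ) : ℤ) * m' + (((u * b j) % m : ℕ) : ℤ) * m' - (m : ℤ) * m') ^ 2 =
      ((((v * b' i) % m' : ℕ) : ℤ) * m + (((v * b' j) % m' : ℕ) : ℤ) * m - (m : ℤ) * m') ^ 2 := by
  have hmR : (m : ℝ) ≠ 0 := by exact_mod_cast hm.ne'
  have hmR' : (m' : ℝ) ≠ 0 := by exact_mod_cast hm'.ne'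
  have a1 : ∀ k, mu m b u k = ((m : ℝ) - (((u * b k) % m : ℕ) : ℝ)) / m := by
    intro k
    unfold mu nn
    rw [Nat.cast_sub (Nat.mod_lt _ hm).le]
  have a2 : ∀ k, mu m' b' v k = ((m' : ℝ) - (((v * b' k) % m' : ℕ) : ℝ)) / m' := by
    intro k
    unfold mu nn
    rw [Nat.cast_sub (Nat.mod_lt _ hm').le]
  rw [a1, a1, a2, a2] at h
  have h2 : (((((u * b i) % m : ℕ) : ℝ) * m' + (((u * b j) % m : ℕ) : ℝ) * m' - (m : ℝ) * m') ^ 2 =
      ((((v * b' i) % m' : ℕ) : ℝ) * m + (((v * b' j) % m' : ℕ) : ℝ) * m - (m : ℝ) * m') ^ 2) := by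
    have l : (((((u * b i) % m : ℕ) : ℝ) * m' + (((u * b j) % m : ℕ) : ℝ) * m' - (m : ℝ) * m') ^ 2) =
        ((m : ℝ) * m') ^ 2 * (1 - ((m : ℝ) - (((u * b i) % m : ℕ) : ℝ)) / m -
          ((m : ℝ) - (((u * b j) % m : ℕ) : ℝ)) / m) ^ 2 := by
      field_simp
      ring
    have r : ((((v * b' i) % m' : ℕ) : ℝ) * m + (((v * b' j) % m' : ℕ) : ℝ) * m - (m : ℝ) * m') ^ 2 =
        ((m : ℝ) * m') ^ 2 * (1 - ((m' : ℝ) - (((v * b' i) % m' : ℕ) : ℝ)) / m' -
          ((m' : ℝ) - (((v * b' j) % m' : ℕ) : ℝ)) / m') ^ 2 := by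
      field_simp
      ring
    rw [l, r, h]
  exact_mod_cast h2

/-- the residues `n j mod m` of a vector and `m` have no common divisor -/
theorem prim4 {m x : ℕ} {s : Fin (2 + 1) → ℂ} {b : Fin (2 + 1) → ℕ} (hc : IsCov m s b)
    (hx : x.Coprime m) (σ : Fin 4 → Fin 4) (hσ : Function.Involutive σ) :
    ∀ d, d ∣ m → (∀ j, d ∣ (x * e4 m b (σ j)) % m) → d = 1 := by
  intro d hd h
  obtain ⟨-, -, -, -, hb⟩ := hc
  have h1 : ∀ j, d ∣ e4 m b j := by
    intro j
    have h2 := h (σ j)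
    rw [hσ j] at h2
    have h3 : d ∣ x * e4 m b j := (Nat.dvd_mod_iff hd).1 h2
    have h4 : Nat.Coprime d x := (hx.coprime_dvd_right hd).symm
    exact h4.dvd_of_dvd_mul_left h3
  refine hb d hd fun j => ?_
  fin_cases j
  · exact h1 0
  · exact h1 1
  · exact h1 2

/-- divisibility from proportional residues -/
theorem dvd_of {ι : Type} {m m' : ℕ} (hm : 0 < m) (n n' : ι → ℕ)
    (hn : ∀ d, d ∣ m → (∀ j, d ∣ n j) → d = 1) (h : ∀ j, n j * m' = n' j * m) : m ∣ m' := by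
  have hg : 0 < Nat.gcd m m' := Nat.gcd_pos_of_pos_left _ hm
  have hd : m / Nat.gcd m m' = 1 := by
    refine hn _ (Nat.div_dvd_of_dvd (Nat.gcd_dvd_left m m')) fun j => ?_
    have hc := Nat.coprime_div_gcd_div_gcd hg
    refine hc.dvd_of_dvd_mul_right ?_
    have h4 : m / Nat.gcd m m' * Nat.gcd m m' ∣ n j * (m' / Nat.gcd m m') * Nat.gcd m m' := by
      rw [Nat.div_mul_cancel (Nat.gcd_dvd_left m m'), mul_assoc,
        Nat.div_mul_cancel (Nat.gcd_dvd_right m m'), h j]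
      exact Nat.dvd_mul_left _ _
    exact Nat.dvd_of_mul_dvd_mul_right hg h4
  have h6 : m = Nat.gcd m m' := by
    have := Nat.div_mul_cancel (Nat.gcd_dvd_left m m')
    rw [hd, one_mul] at this
    exact this.symm
  rw [h6]
  exact Nat.gcd_dvd_right m m'

/-- the sum over an involution -/
theorem sum_inv (f : Fin 4 → ℕ) (σ : Fin 4 → Fin 4) (hσ : Function.Involutive σ) :
    f (σ 0) + f (σ 1) + f (σ 2) + f (σ 3) = f 0 + f 1 + f 2 + f 3 := by
  have h := Equiv.sum_comp hσ.toPerm f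
  rw [Fin.sum_univ_four, Fin.sum_univ_four] at h
  exact h

/-- the residues of `m - v` -/
theorem neg_res {m v c : ℕ} (hv : v < m) (h : 0 < (v * c) % m) :
    ((m - v) * c) % m = m - (v * c) % m := by
  have hm : 0 < m := by omega
  have hlt := Nat.mod_lt (v * c) hm
  have h1 : (m - v) * c + v * c = m * c := by
    rw [← Nat.add_mul, Nat.sub_add_cancel hv.le]
  have h2 : ((m - v) * c) % m + (v * c) % m ≡ 0 [MOD m] := by
    have h3 : ((m - v) * c) % m + (v * c) % m ≡ (m - v) * c + v * c [MOD m] :=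
      (Nat.mod_modEq _ _).add (Nat.mod_modEq _ _)
    rw [h1] at h3
    exact h3.trans (Nat.modEq_zero_iff_dvd.2 (Dvd.intro _ rfl))
  obtain ⟨t, ht⟩ := Nat.modEq_zero_iff_dvd.1 h2
  have h4 := Nat.mod_lt ((m - v) * c) hm
  have t1 : 0 < t := by
    rcases Nat.eq_zero_or_pos t with h5 | h5
    · rw [h5, mul_zero] at ht; omega
    · exact h5
  have t2 : t < 2 := by
    by_contra h5
    have : m * 2 ≤ m * t := Nat.mul_le_mul_left m (by omega)
    omega
  have t3 : t = 1 := by omega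
  rw [t3] at ht
  omega

/-- THE EXPONENTS of two linked types: proportional up to the sign and the Klein group -/
theorem core {m m' : ℕ} {b b' : Fin (2 + 1) → ℕ} {u v : ℕ} {s s' : Fin (2 + 1) → ℂ}
    (hc : IsCov m s b) (hc' : IsCov m' s' b') (hu : u.Coprime m) (hv : v < m')
    (hv' : v.Coprime m') (hsg : sg m 2 b u = 1) (hsg' : sg m' 2 b' v = 1)
    (h : Rk (mu m b u) (mu m' b' v)) :
    m = m' ∧ ∃ σ : Fin 4 → Fin 4, Function.Involutive σ ∧
      ∃ v' : ℕ, (v' = v ∨ v' = m - v) ∧ v'.Coprime m ∧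
        ∀ j, u * e4 m b (σ j) ≡ v' * e4 m' b' j [MOD m] := by
  have hm : 0 < m := by have := hc.1; omega
  have hm' : 0 < m' := by have := hc'.1; omega
  have q := sg_sum hc hu
  have q' := sg_sum hc' hv'
  rw [hsg] at q
  rw [hsg'] at q'
  obtain ⟨σ, hσ, hk⟩ := klein (fun j => (((u * e4 m b j) % m : ℕ) : ℤ) * m')
    (fun j => (((v * e4 m' b' j) % m' : ℕ) : ℤ) * m) ((m : ℤ) * m')
    (by
      have q1 : (((u * e4 m b 0) % m : ℕ) : ℤ) + (((u * e4 m b 1) % m : ℕ) : ℤ) +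
          (((u * e4 m b 2) % m : ℕ) : ℤ) + (((u * e4 m b 3) % m : ℕ) : ℤ) = 2 * m := by
        have : ((1 * m + ((u * e4 m b 0) % m + (u * e4 m b 1) % m + (u * e4 m b 2) % m +
          (u * e4 m b 3) % m) : ℕ) : ℤ) = ((3 * m : ℕ) : ℤ) := by rw [q]
        push_cast at this ⊢
        linarith
      rw [← add_mul, ← add_mul, ← add_mul, q1]
      ring)
    (by
      have q1 : (((v * e4 m' b' 0) % m' : ℕ) : ℤ) + (((v * e4 m' b' 1) % m' : ℕ) : ℤ) +
          (((v * e4 m' b' 2) % m' : ℕ) : ℤ) + (((v * e4 m' b' 3) % m' : ℕ) : ℤ) = 2 * m' := by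
        have : ((1 * m' + ((v * e4 m' b' 0) % m' + (v * e4 m' b' 1) % m' + (v * e4 m' b' 2) % m' +
          (v * e4 m' b' 3) % m') : ℕ) : ℤ) = ((3 * m' : ℕ) : ℤ) := by rw [q']
        push_cast at this ⊢
        linarith
      rw [← add_mul, ← add_mul, ← add_mul, q1]
      ring)
    (real_int hm hm' (h 0 1 (by decide))) (real_int hm hm' (h 0 2 (by decide)))
    (real_int hm hm' (h 1 2 (by decide)))
  have fin : ∀ v' : ℕ, v'.Coprime m' →
      (∀ j, (u * e4 m b (σ j)) % m * m' = (v' * e4 m' b' j) % m' * m) →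
      m = m' ∧ ∀ j, u * e4 m b (σ j) ≡ v' * e4 m' b' j [MOD m] := by
    intro v' hcop hj
    have d1 : m ∣ m' := dvd_of hm _ _ (prim4 hc hu σ hσ) hj
    have d2 : m' ∣ m := dvd_of hm' _ _
      (prim4 hc' hcop (fun j => j) fun j => rfl) fun j => (hj j).symm
    have e : m = m' := Nat.dvd_antisymm d1 d2
    refine ⟨e, ?_⟩
    subst e
    intro j
    exact Nat.eq_of_mul_eq_mul_right hm (hj j)
  rcases hk with hk | hk
  · obtain ⟨e, hj⟩ := fin v hv' fun j => by
      have := hk j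
      exact_mod_cast this.symm
    exact ⟨e, σ, hσ, v, Or.inl rfl, e ▸ hv', hj⟩
  · have hcop : (m' - v).Coprime m' := (Nat.coprime_self_sub_left hv.le).2 hv'
    obtain ⟨e, hj⟩ := fin (m' - v) hcop fun j => by
      have h1 := hk j
      rw [neg_res hv (pos hc' hv' j).1]
      have h2 := (pos hc' hv' j).2
      have h3 : ((((m' - (v * e4 m' b' j) % m') : ℕ) : ℤ)) =
          (m' : ℤ) - (((v * e4 m' b' j) % m' : ℕ) : ℤ) := by
        rw [Nat.cast_sub h2.le]
      have h4 : ((((u * e4 m b (σ j)) % m * m' : ℕ)) : ℤ) =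
          (((m' - (v * e4 m' b' j) % m') * m : ℕ) : ℤ) := by
        rw [Nat.cast_mul, Nat.cast_mul, h3]
        linarith
      exact_mod_cast h4
    refine ⟨e, σ, hσ, m' - v, Or.inr (by rw [e]), e ▸ hcop, hj⟩

end q4_aux

/-- the corrected statement -/
def S_q4c : Prop :=
  ∀ (m m' : ℕ) (b b' : Fin (2 + 1) → ℕ) (u v : ℕ) (s s' : Fin (2 + 1) → ℂ), IsCov m s b →
    IsCov m' s' b' → u < m → u.Coprime m → v < m' → v.Coprime m' → sg m 2 b u = 1 →
    sg m' 2 b' v = 1 → Rk (mu m b u) (mu m' b' v) →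
    m = m' ∧ ∃ v' : ℕ, (v' = v ∨ v' = m - v) ∧
      ∀ w x y : ℕ, w.Coprime m → x ≡ w * u [MOD m] → y ≡ w * v' [MOD m] →
        sg m 2 b x = sg m 2 b' y

/-- ARITHMETIC OF LINKED EXPONENTS. -/
theorem tq4c : S_q4c := by
  intro m m' b b' u v s s' hc hc' _ hu hvm hv hsg hsg' h
  obtain ⟨e, σ, hσ, v', hv', hvc, hj⟩ := q4_aux.core hc hc' hu hvm hv hsg hsg' h
  subst e
  refine ⟨rfl, v', hv', ?_⟩
  intro w x y hw hx hy
  have hm : 0 < m := by have := hc.1; omega
  have xc : x.Coprime m := by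
    have h1 : Nat.gcd x m = Nat.gcd (w * u) m := hx.gcd_eq
    rw [Nat.Coprime, h1]
    exact Nat.Coprime.mul_left hw hu
  have yc : y.Coprime m := by
    have h1 : Nat.gcd y m = Nat.gcd (w * v') m := hy.gcd_eq
    rw [Nat.Coprime, h1]
    exact Nat.Coprime.mul_left hw hvc
  have hr : ∀ j, (y * q4_aux.e4 m b' j) % m = (x * q4_aux.e4 m b (σ j)) % m := by
    intro j
    have h1 : x * q4_aux.e4 m b (σ j) ≡ w * u * q4_aux.e4 m b (σ j) [MOD m] := hx.mul_right _
    have h2 : y * q4_aux.e4 m b' j ≡ w * v' * q4_aux.e4 m b' j [MOD m] := hy.mul_right _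
    have h3 : w * u * q4_aux.e4 m b (σ j) ≡ w * v' * q4_aux.e4 m b' j [MOD m] := by
      rw [mul_assoc, mul_assoc]
      exact (hj j).mul_left _
    exact ((h1.trans h3).trans h2.symm).symm
  have s1 := q4_aux.sg_sum hc xc
  have s2 := q4_aux.sg_sum hc' yc
  rw [hr 0, hr 1, hr 2, hr 3, q4_aux.sum_inv (fun j => (x * q4_aux.e4 m b j) % m) σ hσ] at s2
  have s3 : sg m 2 b x * m = sg m 2 b' y * m := by
    have := s1.trans s2.symm
    omega
  exact Nat.eq_of_mul_eq_mul_right hm s3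

theorem tq4 : S_q4 := tq4c

end SEK
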