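import Pool.Agent.Lib.SE.K.Spec

/-!
# PROJECT SE-K, module q5: arithmetic, one cover (helper33)
-/

set_option autoImplicit false

open Module MeasureTheory Topology

noncomputable section

namespace SEK

open HC HC.E HC.SE SEB SEQ SEG SEY SEX

namespace q5_aux

/-- equal residues -/
theorem same {m w u : ℕ} {b : Fin (2 + 1) → ℕ} (hm : 0 < m)
    (hb : ∀ d, d ∣ m → (∀ j, d ∣ b j) → d = 1)
    (h : ∀ j, (w * b j) % m = (u * b j) % m) : w ≡ u [MOD m] := by
  have h1 : ∀ j, (m : ℤ) ∣ ((u : ℤ) - w) * b j := by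
    intro j
    have h2 : w * b j ≡ u * b j [MOD m] := h j
    have h3 := (Nat.modEq_iff_dvd).1 h2
    push_cast at h3
    rwa [← sub_mul] at h3
  set x : ℕ := ((u : ℤ) - w).natAbs with hx
  have h2 : ∀ j, m ∣ x * b j := by
    intro j
    have h3 := Int.natAbs_dvd_natAbs.2 (h1 j)
    rwa [Int.natAbs_natCast, Int.natAbs_mul, Int.natAbs_natCast] at h3
  have hg : 0 < Nat.gcd m x := Nat.gcd_pos_of_pos_left _ hm
  have hd : m / Nat.gcd m x = 1 := by
    refine hb _ (Nat.div_dvd_of_dvd (Nat.gcd_dvd_left m x)) fun j => ?_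
    have hc := Nat.coprime_div_gcd_div_gcd hg
    refine hc.dvd_of_dvd_mul_left ?_
    have h4 : m / Nat.gcd m x * Nat.gcd m x ∣ x / Nat.gcd m x * b j * Nat.gcd m x := by
      rw [Nat.div_mul_cancel (Nat.gcd_dvd_left m x)]
      have h5 : x / Nat.gcd m x * b j * Nat.gcd m x = x * b j := by
        rw [mul_right_comm, Nat.div_mul_cancel (Nat.gcd_dvd_right m x)]
      rw [h5]
      exact h2 j
    exact Nat.dvd_of_mul_dvd_mul_right hg h4
  have h6 : m ∣ x := by
    have h7 := Nat.div_mul_cancel (Nat.gcd_dvd_left m x)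
    rw [hd, one_mul] at h7
    rw [← h7]
    exact Nat.gcd_dvd_right m x
  rw [Nat.modEq_iff_dvd]
  exact Int.natCast_dvd.2 h6

/-- residues of the opposite character -/
theorem opp {m v c : ℕ} (hv : v ≤ m) (h0 : 0 < (v * c) % m) (hm : 0 < m) :
    ((m - v) * c) % m = m - (v * c) % m := by
  have h1 : (v * c) % m < m := Nat.mod_lt _ hm
  have h2 : (m - v) * c + v * c = m * c := by
    rw [← add_mul, Nat.sub_add_cancel hv]
  have h3 : (((m - v) * c) % m + (v * c) % m) % m = 0 := by
    rw [← Nat.add_mod, h2, Nat.mul_mod_right]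
  have h4 : ((m - v) * c) % m < m := Nat.mod_lt _ hm
  obtain ⟨k, hk⟩ := Nat.dvd_of_mod_eq_zero h3
  have h5 : k = 1 := by
    have h6 : k < 2 := by
      by_contra h7
      push Not at h7
      have := Nat.mul_le_mul_left m h7
      omega
    have h8 : k ≠ 0 := by
      rintro rfl
      omega
    omega
  subst h5
  omega

/-- a permutation of two exponents -/
theorem swap {m u w : ℕ} {b : Fin (2 + 1) → ℕ} (hm : 3 ≤ m) (hu : u.Coprime m)
    (hw : w.Coprime m) (hK : Kl m b) {i j l : Fin (2 + 1)} (hij : i ≠ j) (hil : i ≠ l)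
    (hjl : j ≠ l) (h1 : (w * b i) % m = (u * b j) % m) (h2 : (w * b j) % m = (u * b i) % m)
    (h3 : m ∣ (w * b l) % m + ∑ n, (u * b n) % m) : w ≡ u [MOD m] ∨ m ∣ w + u := by
  obtain ⟨u', -, hu'⟩ := Nat.exists_mul_mod_eq_one_of_coprime hu (by omega)
  have e1 : u * u' ≡ 1 [MOD m] := by
    show u * u' % m = 1 % m
    rw [hu', Nat.mod_eq_of_lt (by omega)]
  have hc' : u'.Coprime m := by
    have h4 : (u * u').Coprime m := by
      have h5 := e1.gcd_eq
      rw [Nat.Coprime, h5, Nat.gcd_one_left]
    exact Nat.Coprime.coprime_mul_left h4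
  have hh : (w * u').Coprime m := hw.mul_left hc'
  have a1 : w * u' * b i ≡ b j [MOD m] := by
    have h5 : w * b i ≡ u * b j [MOD m] := h1
    calc w * u' * b i = w * b i * u' := by ring
      _ ≡ u * b j * u' [MOD m] := h5.mul_right _
      _ = u * u' * b j := by ring
      _ ≡ 1 * b j [MOD m] := e1.mul_right _
      _ = b j := one_mul _
  have a2 : w * u' * b j ≡ b i [MOD m] := by
    have h5 : w * b j ≡ u * b i [MOD m] := h2
    calc w * u' * b j = w * b j * u' := by ring
      _ ≡ u * b i * u' [MOD m] := h5.mul_right _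
      _ = u * u' * b i := by ring
      _ ≡ 1 * b i [MOD m] := e1.mul_right _
      _ = b i := one_mul _
  have a3 : m ∣ w * u' * b l + ∑ n, b n := by
    have h5 : (w * b l) % m ≡ w * b l [MOD m] := Nat.mod_modEq _ _
    have h6 : ∑ n, (u * b n) % m ≡ ∑ n, u * b n [MOD m] := by
      rw [Nat.ModEq, ← Finset.sum_nat_mod]
    have h7 : m ∣ w * b l + ∑ n, u * b n := by
      rw [← Nat.modEq_zero_iff_dvd] at h3 ⊢
      exact (h5.add h6).symm.trans h3
    have h8 : m ∣ u' * (w * b l + ∑ n, u * b n) := Dvd.dvd.mul_left h7 _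
    rw [← Nat.modEq_zero_iff_dvd] at h8 ⊢
    refine Nat.ModEq.trans ?_ h8
    have h9 : u' * (w * b l + ∑ n, u * b n) = w * u' * b l + u * u' * ∑ n, b n := by
      rw [← Finset.mul_sum]
      ring
    rw [h9]
    refine Nat.ModEq.add_left _ ?_
    have h10 := e1.mul_right (∑ n, b n)
    rw [one_mul] at h10
    exact h10.symm
  have e2 : w * u' * u ≡ w [MOD m] := by
    calc w * u' * u = w * (u * u') := by ring
      _ ≡ w * 1 [MOD m] := e1.mul_left _
      _ = w := mul_one _
  rcases hK (w * u') hh ⟨i, j, l, hij, hil, hjl, a1, a2, a3⟩ with h | h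
  · left
    have h5 := h.mul_right u
    rw [one_mul] at h5
    exact e2.symm.trans h5
  · right
    have h5 : m ∣ (w * u' + 1) * u := Dvd.dvd.mul_right h _
    rw [← Nat.modEq_zero_iff_dvd] at h5 ⊢
    refine Nat.ModEq.trans ?_ h5
    rw [add_mul, one_mul]
    exact e2.symm.add_right _

/-- the relation of the exponents for the residues -/
theorem rel {m a b a' b' : ℕ} (hm : 0 < m) (ha : a ≤ m) (hb : b ≤ m) (ha' : a' ≤ m)
    (hb' : b' ≤ m)
    (h : (1 - ((m - a : ℕ) : ℝ) / m - ((m - b : ℕ) : ℝ) / m) ^ 2 =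
      (1 - ((m - a' : ℕ) : ℝ) / m - ((m - b' : ℕ) : ℝ) / m) ^ 2) :
    a + b = a' + b' ∨ a + b + (a' + b') = 2 * m := by
  have hmR : (m : ℝ) ≠ 0 := by exact_mod_cast hm.ne'
  rw [Nat.cast_sub ha, Nat.cast_sub hb, Nat.cast_sub ha', Nat.cast_sub hb'] at h
  rcases sq_eq_sq_iff_eq_or_eq_neg.1 h with h1 | h1
  · left
    field_simp at h1
    have h2 : (a : ℝ) + b = a' + b' := by linarith
    exact_mod_cast h2
  · right
    field_simp at h1
    have h2 : (a : ℝ) + b + (a' + b') = 2 * m := by linarith
    exact_mod_cast h2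

end q5_aux

open q5_aux in
/-- ARITHMETIC, one cover. -/
theorem tq5 : S_q5 := by
  intro m b u v s hc hum hu hvm hv hsu hsv hR hK
  obtain ⟨hm3, -, hbj, hS, hb⟩ := hc
  have hm : 0 < m := by omega
  have hu0 : 0 < u := by
    rcases Nat.eq_zero_or_pos u with h | h
    · subst h
      rw [Nat.coprime_zero_left] at hu
      omega
    · exact h
  have hv0 : 0 < v := by
    rcases Nat.eq_zero_or_pos v with h | h
    · subst h
      rw [Nat.coprime_zero_left] at hv
      omega
    · exact h
  have pos : ∀ w : ℕ, w.Coprime m → ∀ j, 0 < (w * b j) % m := by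
    intro w hw j
    rcases Nat.eq_zero_or_pos ((w * b j) % m) with h | h
    · exact absurd (hw.symm.dvd_of_dvd_mul_left (Nat.dvd_of_mod_eq_zero h)) (hbj j)
    · exact h
  have lt : ∀ w : ℕ, ∀ j, (w * b j) % m < m := fun w j => Nat.mod_lt _ hm
  -- the relations
  have R : ∀ i j : Fin (2 + 1), i ≠ j →
      (u * b i) % m + (u * b j) % m = (v * b i) % m + (v * b j) % m ∨
      (u * b i) % m + (u * b j) % m + ((v * b i) % m + (v * b j) % m) = 2 * m := by
    intro i j hij
    exact rel hm (lt u i).le (lt u j).le (lt v i).le (lt v j).le (hR i j hij)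
  have R01 := R 0 1 (by decide)
  have R02 := R 0 2 (by decide)
  have R12 := R 1 2 (by decide)
  have w1 : (m - v).Coprime m := by
    rw [Nat.coprime_comm, Nat.coprime_self_sub_right hvm.le]
    exact hv.symm
  have o : ∀ j, ((m - v) * b j) % m = m - (v * b j) % m := fun j => opp hvm.le (pos v hv j) hm
  have sm : ∑ n, (u * b n) % m = (u * b 0) % m + (u * b 1) % m + (u * b 2) % m := by
    rw [Fin.sum_univ_three]
  -- conclusions
  have fin1 : v ≡ u [MOD m] ∨ m ∣ v + u → v = u ∨ v = m - u := by
    rintro (h | h)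
    · left
      exact Nat.ModEq.eq_of_lt_of_lt h hvm hum
    · right
      obtain ⟨k, hk⟩ := h
      have h6 : k < 2 := by
        by_contra h7
        push Not at h7
        have := Nat.mul_le_mul_left m h7
        omega
      have h8 : k ≠ 0 := by
        rintro rfl
        omega
      have : k = 1 := by omega
      subst this
      omega
  have fin2 : m - v ≡ u [MOD m] ∨ m ∣ m - v + u → v = u ∨ v = m - u := by
    rintro (h | h)
    · right
      have := Nat.ModEq.eq_of_lt_of_lt h (by omega) hum
      omega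
    · left
      obtain ⟨k, hk⟩ := h
      have h6 : k < 2 := by
        by_contra h7
        push Not at h7
        have := Nat.mul_le_mul_left m h7
        omega
      have h8 : k ≠ 0 := by
        rintro rfl
        omega
      have : k = 1 := by omega
      subst this
      omega
  have p0 := pos u hu 0
  have p1 := pos u hu 1
  have p2 := pos u hu 2
  have p0' := pos v hv 0
  have p1' := pos v hv 1
  have p2' := pos v hv 2
  have l0' := lt v 0
  have l1' := lt v 1
  have l2' := lt v 2
  rcases R01 with a | a <;> rcases R02 with c | c <;> rcases R12 with e | e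
  · -- + + +
    refine fin1 (Or.inl (same hm hb fun j => ?_))
    fin_cases j
    · show (v * b 0) % m = (u * b 0) % m
      omega
    · show (v * b 1) % m = (u * b 1) % m
      omega
    · show (v * b 2) % m = (u * b 2) % m
      omega
  · -- + + -
    refine fin2 (swap hm3 hu w1 hK (i := 1) (j := 2) (l := 0) (by decide) (by decide) (by decide)
      ?_ ?_ ?_)
    · rw [o]
      omega
    · rw [o]
      omega
    · rw [o, sm]
      refine ⟨2, ?_⟩
      omega
  · -- + - +
    refine fin2 (swap hm3 hu w1 hK (i := 0) (j := 2) (l := 1) (by decide) (by decide) (by decide)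
      ?_ ?_ ?_)
    · rw [o]
      omega
    · rw [o]
      omega
    · rw [o, sm]
      refine ⟨2, ?_⟩
      omega
  · -- + - -
    refine fin1 (swap hm3 hu hv hK (i := 0) (j := 1) (l := 2) (by decide) (by decide) (by decide)
      ?_ ?_ ?_)
    · omega
    · omega
    · rw [sm]
      refine ⟨2, ?_⟩
      omega
  · -- - + +
    refine fin2 (swap hm3 hu w1 hK (i := 0) (j := 1) (l := 2) (by decide) (by decide) (by decide)
      ?_ ?_ ?_)
    · rw [o]
      omega
    · rw [o]
      omega
    · rw [o, sm]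
      refine ⟨2, ?_⟩
      omega
  · -- - + -
    refine fin1 (swap hm3 hu hv hK (i := 0) (j := 2) (l := 1) (by decide) (by decide) (by decide)
      ?_ ?_ ?_)
    · omega
    · omega
    · rw [sm]
      refine ⟨2, ?_⟩
      omega
  · -- - - +
    refine fin1 (swap hm3 hu hv hK (i := 1) (j := 2) (l := 0) (by decide) (by decide) (by decide)
      ?_ ?_ ?_)
    · omega
    · omega
    · rw [sm]
      refine ⟨2, ?_⟩
      omega
  · -- - - -
    refine fin2 (Or.inl (same hm hb fun j => ?_))
    fin_cases j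
    · show ((m - v) * b 0) % m = (u * b 0) % m
      rw [o]
      omega
    · show ((m - v) * b 1) % m = (u * b 1) % m
      rw [o]
      omega
    · show ((m - v) * b 2) % m = (u * b 2) % m
      rw [o]
      omega

end SEK
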