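import Pool.Agent.Lib.SE.K.Spec
import Pool.Agent.Lib.SE.X.xB
import Pool.Agent.Lib.SE.X.xF

/-!
# PROJECT SE-K, module q6: the Baire argument, four branch points (helper61, after SE/X/xB.lean)
-/

set_option autoImplicit false

open Module MeasureTheory Topology

noncomputable section

namespace SEK

open HC HC.E HC.SE SEB SEQ SEG SEY SEX

namespace q6_aux

open cCj_aux

theorem inc_inj {r : ℕ} {s : Fin (r + 1) → ℂ} (hs : Inc s) : Function.Injective s :=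
  fun _ _ hij => StrictMono.injective hs (congrArg Complex.re hij)

theorem nd (hq2 : S_q2) (hq3 : S_q3) (hI : S_cI) (hK : S_cKap) (hPv : S_cPv) (hC : S_cC)
    (hJx : S_cJx) (hN : S_cN) (hSg : S_Sg) (hO : S_eO) {m m' : ℕ} {b b' : Fin (2 + 1) → ℕ} {u v : ℕ}
    (huv : ¬ Rk (mu m b u) (mu m' b' v)) (hp : sg m 2 b u = 1) (hpv : sg m' 2 b' v = 1)
    (θ : Module.End ℂ (Fin 2 → ℂ)) (hθ : Function.Injective θ) :
    IsNowhereDense {s : Fin (2 + 1) → ℂ | AdX m b u m' b' v s ∧ LkX m b u m' b' v s θ} := by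
  by_cases hA : ∃ s : Fin (2 + 1) → ℂ, AdX m b u m' b' v s
  swap
  · have h1 : {s : Fin (2 + 1) → ℂ | AdX m b u m' b' v s ∧ LkX m b u m' b' v s θ} = ∅ := by
      ext s
      simp only [Set.mem_ofPred_eq, Set.mem_empty_iff_false, iff_false]
      exact fun h => hA ⟨s, h.1⟩
    rw [h1]
    exact isNowhereDense_empty
  obtain ⟨s0, hs0⟩ := hA
  have hu : sg m 2 b u + sg m 2 b (m - u) = 2 := hSg m 2 _ b hs0.1.2.1 u hs0.1.2.2.1 hs0.1.2.2.2
  have hv : sg m' 2 b' v + sg m' 2 b' (m' - v) = 2 :=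
    hSg m' 2 _ b' hs0.2.2.1.2.1 v hs0.2.2.1.2.2.1 hs0.2.2.1.2.2.2
  have hEv : Exq (mu m' b' v) := (hK m' 2 b' v s0 hs0.2.2.1).2.1
  have hCj := tcCj hI hK hPv hC hJx
  have hOp : IsOpen {s : Fin (2 + 1) → ℂ | AdX m b u m' b' v s} := by
    have h1 : {s : Fin (2 + 1) → ℂ | AdX m b u m' b' v s} =
        {s : Fin (2 + 1) → ℂ | Admc m b u s ∧ NDc m b u s} ∩
          {s : Fin (2 + 1) → ℂ | Admc m' b' v s ∧ NDc m' b' v s} := by
      ext s
      exact ⟨fun h => ⟨⟨h.1, h.2.1⟩, h.2.2.1, h.2.2.2⟩, fun h => ⟨h.1.1, h.1.2, h.2.1, h.2.2⟩⟩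
    rw [h1]
    exact (hCj m 2 b u).1.inter (hCj m' 2 b' v).1
  have hF : ContinuousOn (fun s => LinearMap.toMatrix' θ * JM hu s -
      JM hv s * LinearMap.toMatrix' θ) {s : Fin (2 + 1) → ℂ | AdX m b u m' b' v s} := by
    have j1 : ContinuousOn (JM hu) {s : Fin (2 + 1) → ℂ | AdX m b u m' b' v s} :=
      (eB_aux.JM_cont hK hPv hC hu).mono fun s hs => ⟨hs.1, hs.2.1⟩
    have j2 : ContinuousOn (JM hv) {s : Fin (2 + 1) → ℂ | AdX m b u m' b' v s} :=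
      (eB_aux.JM_cont hK hPv hC hv).mono fun s hs => ⟨hs.2.2.1, hs.2.2.2⟩
    exact (continuousOn_const.mul j1).sub (j2.mul continuousOn_const)
  unfold IsNowhereDense
  by_contra hne
  obtain ⟨s₀, hs₀⟩ := Set.nonempty_iff_ne_empty.mpr hne
  have hWo : IsOpen (interior (closure
      {s : Fin (2 + 1) → ℂ | AdX m b u m' b' v s ∧ LkX m b u m' b' v s θ})) := isOpen_interior
  obtain ⟨s₂, k1, k2⟩ := mem_closure_iff.mp (interior_subset hs₀) _ hWo hs₀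
  set O : Set (Fin (2 + 1) → ℂ) :=
    interior (closure {s : Fin (2 + 1) → ℂ | AdX m b u m' b' v s ∧ LkX m b u m' b' v s θ}) ∩
      {s : Fin (2 + 1) → ℂ | AdX m b u m' b' v s} with hOd
  have hOo : IsOpen O := hWo.inter hOp
  have hLk : ∀ s ∈ O, LkX m b u m' b' v s θ := by
    intro s hs
    rw [xB_aux.lk_iff hPv hJx hu hv hs.2]
    by_contra hne'
    have hcont : ContinuousAt (fun s => LinearMap.toMatrix' θ * JM hu s -
      JM hv s * LinearMap.toMatrix' θ) s := hF.continuousAt (hOp.mem_nhds hs.2)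
    obtain ⟨V, hV1, hV2, hV3⟩ := eventually_nhds_iff.mp (hcont.eventually_ne hne')
    obtain ⟨s', h5, h6⟩ := mem_closure_iff.mp (interior_subset hs.1) V hV2 hV3
    exact hV1 s' h5 ((xB_aux.lk_iff hPv hJx hu hv h6.1 θ).1 h6.2)
  have hde : Dense ({s : Fin (2 + 1) → ℂ | Inc s ∧ ¬ Nj (mu m' b' v) s})ᶜ :=
    dense_of_mem_residual (hN 2 (mu m' b' v) hEv)
  obtain ⟨s₁, hs₁, hs₁'⟩ := hde.inter_open_nonempty _ hOo ⟨s₂, k1, k2.1⟩
  have hInc : Inc s₁ := hs₁.2.1.1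
  have n1 : Nj (mu m' b' v) s₁ := by
    by_contra hn
    exact hs₁' ⟨hInc, hn⟩
  have hUo : IsOpen (O ∩ {s : Fin (2 + 1) → ℂ | Inc s ∧ Nj (mu m' b' v) s}) :=
    hOo.inter (hO 2 (mu m' b' v) hEv)
  have hIv := hq2 m m' b b' u v (O ∩ {s : Fin (2 + 1) → ℂ | Inc s ∧ Nj (mu m' b' v) s}) hUo
    (fun s hs => hs.1.2) (fun s hs => hs.2.2) θ hθ (fun s hs => hLk s hs.1) hp hpv
  exact huv (hq3 _ _ _ hUo ⟨s₁, hs₁, hInc, n1⟩ (fun s hs => inc_inj hs.2.1) hIv)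

end q6_aux

open q6_aux

/-- Module q6: the Baire argument, four branch points. -/
theorem tq6 : S_q2 → S_q3 → S_cI → S_cKap → S_cPv → S_cC → S_cJx → S_cN → S_Sg → S_eO → S_q6 := by
  intro hq2 hq3 hI hK hPv hC hJx hN hSg hO m m' b b' u v huv hp hq
  by_cases hex : ∃ s, AdX m b u m' b' v s ∧ LkB m b u m' b' v s
  swap
  · have h1 : {s : Fin (2 + 1) → ℂ | AdX m b u m' b' v s ∧ LkB m b u m' b' v s} = ∅ := by
      apply Set.eq_empty_of_forall_notMem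
      intro s hs
      exact hex ⟨s, hs⟩
    rw [h1]
    exact IsMeagre.empty
  obtain ⟨s₀, hs₀, θ₀, ⟨t1, -⟩, t3⟩ := hex
  have e0 := xF_aux.sg_le hJx hs₀ t1 t3
  have e1 : sg m 2 b u + sg m 2 b (m - u) = 2 :=
    hSg m 2 _ b hs₀.1.2.1 u hs₀.1.2.2.1 hs₀.1.2.2.2
  have e2 : sg m' 2 b' v + sg m' 2 b' (m' - v) = 2 :=
    hSg m' 2 _ b' hs₀.2.2.1.2.1 v hs₀.2.2.1.2.2.1 hs₀.2.2.1.2.2.2
  have hp1 : sg m 2 b u = 1 := by omega
  have hpv : sg m' 2 b' v = 1 := by omega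
  have : Countable (cBa2_aux.Al 2) := (cBa2_aux.countable_Al 2).to_subtype
  have hMe : IsMeagre (⋃ θ : cBa2_aux.Al 2, {s : Fin (2 + 1) → ℂ |
      Function.Injective (θ : Module.End ℂ (Fin 2 → ℂ)) ∧ AdX m b u m' b' v s ∧
        LkX m b u m' b' v s (θ : Module.End ℂ (Fin 2 → ℂ))}) := by
    refine isMeagre_iUnion fun θ => ?_
    by_cases hi : Function.Injective (θ : Module.End ℂ (Fin 2 → ℂ))
    · refine (nd hq2 hq3 hI hK hPv hC hJx hN hSg hO huv hp1 hpv _ hi).isMeagre.mono ?_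
      rintro s ⟨_, hs⟩
      exact hs
    · have h1 : {s : Fin (2 + 1) → ℂ |
          Function.Injective (θ : Module.End ℂ (Fin 2 → ℂ)) ∧ AdX m b u m' b' v s ∧
            LkX m b u m' b' v s (θ : Module.End ℂ (Fin 2 → ℂ))} = ∅ := by
        ext s
        constructor
        · rintro ⟨h, _⟩
          exact absurd h hi
        · intro h
          exact absurd h (Set.notMem_empty s)
      rw [h1]
      exact IsMeagre.empty
  refine hMe.mono ?_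
  rintro s ⟨h1, θ, ⟨h2, h3⟩, h4⟩
  exact Set.mem_iUnion.2 ⟨⟨θ, h3⟩, h2, h1, h4⟩

end SEK
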