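import Pool.Agent.Lib.SE.Z.Main
import Pool.Agent.Lib.SE.K.Jnk
import Pool.Agent.Lib.SE.K.q1
import Pool.Agent.Lib.SE.K.q2
import Pool.Agent.Lib.SE.K.q3
import Pool.Agent.Lib.SE.K.q4
import Pool.Agent.Lib.SE.K.q5
import Pool.Agent.Lib.SE.K.q6
import Pool.Agent.Lib.SE.Big.eO

/-!
# PROJECT SE-K: the modules (helper64)
-/

set_option autoImplicit false

noncomputable section

namespace SEK

open HC HC.E HC.SE SEB SEQ SEG SEY SEX SEZ

theorem q2' : S_q2 := tq2 (tq1 cD' cE' cI') cKap' cPv' cJx'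

theorem q6' : S_q6 := tq6 q2' tq3 cI' cKap' cPv' cC' cJx' cN' tSg (teO cI' cC')

theorem modsK : ModsK := ⟨tq4, tq5, q6'⟩

/-- **Jnk.** Very general points of the line, any two cyclic covers with at least 4 branch points. -/
theorem tJnk : S_Jnk := jnk_of modsK tzP zC'

end SEK
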