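import Pool.Agent.Lib.SE.K.Spec
import Pool.Agent.Lib.SE.X.Main
import Pool.Agent.Lib.SE.Z.Asm

/-!
# PROJECT SE-K: assembly (helper64)
-/

set_option autoImplicit false

open Module MeasureTheory Topology

noncomputable section

namespace SEK

open HC HC.E HC.SE SEB SEQ SEG SEY SEX

/-- The modules. -/
structure ModsK : Prop where
  q4 : S_q4
  q5 : S_q5
  q6 : S_q6

/-- The exponents have no symmetry (any `r`). -/
def KlG (m : ℕ) {r : ℕ} (b : Fin (r + 1) → ℕ) : Prop :=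
  ∀ h : ℕ, h.Coprime m → (∃ i j l : Fin (r + 1), i ≠ j ∧ i ≠ l ∧ j ≠ l ∧
    h * b i ≡ b j [MOD m] ∧ h * b j ≡ b i [MOD m] ∧ m ∣ h * b l + ∑ n, b n) →
    h ≡ 1 [MOD m] ∨ m ∣ h + 1

theorem klG_perm {m r : ℕ} {b : Fin (r + 1) → ℕ} (σ : Equiv.Perm (Fin (r + 1)))
    (h : KlG m b) : KlG m (b ∘ σ) := by
  rintro t ht ⟨i, j, l, h1, h2, h3, h4, h5, h6⟩
  refine h t ht ⟨σ i, σ j, σ l, fun h => h1 (σ.injective h), fun h => h2 (σ.injective h),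
    fun h => h3 (σ.injective h), h4, h5, ?_⟩
  have e : ∑ n, (b ∘ σ) n = ∑ n, b n := Equiv.sum_comp σ b
  rw [e] at h6
  exact h6

/-! ## One cover -/

/-- `Full` fails for some new part. -/
def NF (m r : ℕ) (b : Fin (r + 1) → ℕ) (s : Fin (r + 1) → ℂ) : Prop :=
  ¬ ∀ T : AV, IsCov m s b → ∀ (N : New T m s b)
    (E : T.V →ₗ[ℝ] T.V →ₗ[ℝ] ℝ) (hE : IsPol T N.Z E), Full (mkCyc N hE)

theorem full2I (K : ModsK) (m : ℕ) (b : Fin (2 + 1) → ℕ) (hW : HypW m 2 b) (hKl : KlG m b) :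
    IsMeagre {s : Fin (2 + 1) → ℂ | Inc s ∧ NF m 2 b s} := by
  have M := mods
  have M5 := mods5
  have M6 := mods8
  obtain ⟨u, hum, huc, hp, hq⟩ := hW
  by_cases hex : ∃ s : Fin (2 + 1) → ℂ, Inc s ∧ IsCov m s b
  · obtain ⟨s₀, hs₀, hc₀⟩ := hex
    have hK : ∀ u < m, u.Coprime m → Exq (mu m b u) ∧ ∀ n : ℤ, ∑ j, mu m b u j ≠ n :=
      fun u h1 h2 => ⟨(M5.Kap m 2 b u s₀ ⟨hs₀, hc₀, h1, h2⟩).2.1,
        (M5.Kap m 2 b u s₀ ⟨hs₀, hc₀, h1, h2⟩).2.2.1⟩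
    have hmN : IsMeagre (⋃ v : {v : ℕ // v < m ∧ v.Coprime m},
        {s : Fin (2 + 1) → ℂ | Inc s ∧ ¬ Nj (mu m b v.1) s}) :=
      isMeagre_iUnion fun v => M5.N 2 _ (hK v.1 v.2.1 v.2.2).1
    have hmL : IsMeagre (⋃ v : {v : ℕ // ¬ Rk (mu m b u) (mu m b v)},
        {s : Fin (2 + 1) → ℂ | AdX m b u m b v.1 s ∧ LkB m b u m b v.1 s}) :=
      isMeagre_iUnion fun v => K.q6 m m b b u v.1 v.2 hp hq
    refine (((hmN.union (M5.AI 2 _ (hK u hum huc).1 (hK u hum huc).2)).union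
      (cBa2' m 2 b u hp hq (Or.inr rfl))).union hmL).mono ?_
    rintro s ⟨hs, hno⟩
    by_contra hbad
    rw [Set.mem_union, Set.mem_union, Set.mem_union, not_or, not_or, not_or] at hbad
    obtain ⟨⟨⟨hb0, hb1⟩, hb2⟩, hb3⟩ := hbad
    refine hno fun T hc N E hE => ?_
    have hm : 3 ≤ m := hc.1
    have hNj : ∀ v < m, v.Coprime m → Nj (mu m b v) s := by
      intro v h1 h2
      by_contra h3
      exact hb0 (Set.mem_iUnion.2 ⟨⟨v, h1, h2⟩, hs, h3⟩)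
    have hAdm : Admc m b u s := ⟨hs, hc, hum, huc⟩
    have hAI : AInd (fun k : Fin 2 => Ic (mu m b u) s k fun x => (1 : Polynomial ℂ).eval x) := by
      by_contra h
      exact hb1 ⟨hs, h⟩
    let D : Cyc T m := mkCyc N hE
    obtain ⟨w, hw⟩ := exists_unit hum huc
    obtain ⟨B, hB⟩ := N.dif u hum huc 0 (sum_lt_of_sg_pos hp)
    have hBZ := M5.Bf T m 2 s b hc N u 0 B hB
    obtain ⟨v, hv, hvP⟩ := M5.Loop T m 2 s b hs hc N
    have hBv : ∀ k, B (v k) = Pc m b u s 1 k := by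
      refine hvP u hum huc 1 B hBZ ?_
      intro x hx y hy
      rw [hB x hx y hy, pow_zero, Polynomial.eval_one]
    have hBW : (B.restrictScalars ℝ : Frm T) ∈ Ws D w := by
      intro x
      have := hBZ x
      change B (N.Z x) = zet m w * B x
      rw [this, zet, hw]
    have hAI2 : AInd (fun k => (B.restrictScalars ℝ : Frm T) (v k)) := by
      refine AInd.mul hAI fun k => ⟨kap m b u k, ?_, ?_, ?_⟩
      · exact ((M5.Kap m 2 b u s hAdm).2.2.2 k).1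
      · exact ((M5.Kap m 2 b u s hAdm).2.2.2 k).2
      · change B (v k) = _
        rw [hBv k, Pc]
    obtain ⟨hinj, hmat⟩ := M5.EB T m 2 D hm (by omega) N.dim w _ hBW v hv hAI2
    have hHod := M5.Hod T m 2 s b hs hc hNj N D rfl v hvP
    obtain ⟨hND, hHit⟩ := M5.Hit T m 2 s b D hs hc hNj (by omega) N.dim v hinj hmat hHod w
    rw [hw] at hND hHit
    have hp' : ∀ u : (ZMod m)ˣ, D.p u = sg m 2 b (u : ZMod m).val :=
      M5.Pn M5.Sg M.Bas T m 2 s b hc N D rfl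
    have hi : ∀ h, HLie D h → Hits D h {w} := by
      refine hHit ?_
      rintro ⟨g, hg, J, hJ, hJg⟩
      exact hb2 ⟨hAdm, hND, g, hg, J, hJ, hJg⟩
    have hnw : ((-w : (ZMod m)ˣ) : ZMod m).val = m - u := by
      rw [Hit_aux.neg_val hm w, hw]
    intro h hh
    have h1 : ∀ t, Hits D h {t} :=
      M.All M.Bas M.Dim M.LI M.Cl T m 2 D hm le_rfl N.dim h hh w (hi h hh)
    refine ⟨h1, ?_⟩
    intro s' t' hne hne'
    by_contra hno'
    have hL := M6.fL M.Bas M.Dim M.LI M.Cl M.Gou T m 2 D hm le_rfl N.dim h hh h1 s' t' hne hno'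
      (w * s'⁻¹)
    rw [inv_mul_cancel_right] at hL
    have hpw : 0 < D.p w := by rw [hp', hw]; exact hp
    have hpnw : 0 < D.p (-w) := by rw [hp', hnw]; exact hq
    obtain ⟨t₂, ht₂, θ, hθ1, hθ2⟩ :=
      M6.fT T m 2 D hm le_rfl N.dim h hh h1 w (w * s'⁻¹ * t') hL hpw hpnw
    -- `t₂` is neither `w` nor `- w`
    have key : ∀ c : (ZMod m)ˣ, w * s'⁻¹ * t' = w * c → t' = s' * c := by
      intro c h3
      rw [mul_assoc] at h3
      rw [← mul_left_cancel h3, mul_inv_cancel_left]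
    have ht₂w : w ≠ t₂ ∧ -w ≠ t₂ := by
      constructor
      · rintro rfl
        rcases ht₂ with h2 | h2
        · exact hne (by rw [key 1 (by rw [mul_one]; exact h2.symm), mul_one])
        · exact hne' (by
            rw [key (-1) (by rw [mul_neg, mul_one]; exact (neg_eq_iff_eq_neg.2 h2).symm),
              mul_neg, mul_one])
      · intro h0
        rcases ht₂ with h2 | h2
        · exact hne' (by
            rw [key (-1) (by rw [mul_neg, mul_one, h0]; exact h2.symm), mul_neg, mul_one])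
        · exact hne (by
            rw [key 1 (by rw [mul_one]; exact (neg_injective (h0.trans h2)).symm), mul_one])
    have hLk := M6.fA T m 2 s b D hs hc hNj le_rfl N.dim v hinj hmat hHod h hh w t₂ (h1 t₂) θ
      hθ1 hθ2
    have : NeZero m := ⟨by omega⟩
    have hND2 : NDc m b (t₂ : ZMod m).val s :=
      (M5.Hit T m 2 s b D hs hc hNj (by omega) N.dim v hinj hmat hHod t₂).1
    have ht₂m : (t₂ : ZMod m).val < m := ZMod.val_lt _
    have ht₂c : (t₂ : ZMod m).val.Coprime m := ZMod.val_coe_unit_coprime t₂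
    rw [hw] at hLk
    have hAdm2 : Admc m b (t₂ : ZMod m).val s := ⟨hs, hc, ht₂m, ht₂c⟩
    have hsu : sg m 2 b u = 1 := by
      have h4 := tSg m 2 s b hc u hum huc
      omega
    obtain ⟨θ₀, hθi, hθa, hθk⟩ := hLk
    have hsg : sg m 2 b (t₂ : ZMod m).val = 1 := by
      obtain ⟨J₁, hJ₁, -⟩ := cJx' m 2 b u s hAdm hND
      obtain ⟨J₂, hJ₂, -⟩ := cJx' m 2 b _ s hAdm2 hND2
      have h4 := (SEX.sg_eq modsX hAdm hND hAdm2 hND2 hθi hJ₁ hJ₂ (hθk J₁ J₂ hJ₁ hJ₂)).1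
      omega
    have hRk : Rk (mu m b u) (mu m b (t₂ : ZMod m).val) := by
      by_contra hR
      exact hb3 (Set.mem_iUnion.2 ⟨⟨(t₂ : ZMod m).val, hR⟩,
        ⟨hAdm, hND, hAdm2, hND2⟩, θ₀, ⟨hθi, hθa⟩, hθk⟩)
    rcases K.q5 m b u (t₂ : ZMod m).val s hc hum huc ht₂m ht₂c hsu hsg hRk hKl with h4 | h4
    · apply ht₂w.1
      rw [← hw] at h4
      exact (Units.ext (ZMod.val_injective m h4)).symm
    · apply ht₂w.2
      rw [← hnw] at h4
      exact (Units.ext (ZMod.val_injective m h4)).symm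
  · have : {s : Fin (2 + 1) → ℂ | Inc s ∧ NF m 2 b s} = ∅ := by
      refine Set.eq_empty_of_forall_notMem ?_
      rintro s ⟨hs, hno⟩
      exact hno fun T hc => absurd ⟨s, hs, hc⟩ hex
    rw [this]
    exact IsMeagre.empty

theorem full2 (K : ModsK) (m : ℕ) (b : Fin (2 + 1) → ℕ) (hW : HypW m 2 b) (hKl : KlG m b) :
    IsMeagre {s : Fin (2 + 1) → ℂ | Function.Injective s ∧ NF m 2 b s} := by
  refine (tcSo 2 (fun σ => {s : Fin (2 + 1) → ℂ | Inc s ∧ NF m 2 (b ∘ σ) s})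
    fun σ => full2I K m (b ∘ σ) (hypW_perm σ hW) (klG_perm σ hKl)).mono ?_
  rintro s ⟨hs, hno⟩ σ hσ
  refine ⟨hσ, fun hall => hno fun T hc N E hE => ?_⟩
  obtain ⟨-, h1, h2⟩ := tcPm T m 2 s b σ
  obtain ⟨N', hN'⟩ := h2 N
  have hE' : IsPol T N'.Z E := by rw [hN']; exact hE
  have h3 := hall T (h1 hc) N' E hE'
  have h4 : mkCyc N' hE' = mkCyc N hE := by
    unfold mkCyc
    congr
  rw [h4] at h3
  exact h3

/-- The meagre sets for `r = 2` (empty for other `r`). -/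
def MMr (m r : ℕ) (b : Fin (r + 1) → ℕ) : Set (Fin (r + 1) → ℂ) :=
  open Classical in
  if r = 2 ∧ HypW m r b ∧ KlG m b then {s | Function.Injective s ∧ NF m r b s} else ∅

theorem mmr_meagre (K : ModsK) (m r : ℕ) (b : Fin (r + 1) → ℕ) : IsMeagre (MMr m r b) := by
  classical
  rw [MMr]
  split_ifs with h
  · obtain ⟨rfl, h1, h2⟩ := h
    exact full2 K m b h1 h2
  · exact IsMeagre.empty

/-- Outside `MMr m 2 b` the new part is a good factor `GFw` of rank `2`. -/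
theorem gfw_of_MMr {m r : ℕ} {b : Fin (r + 1) → ℕ} {s : Fin (r + 1) → ℂ} (h2 : r = 2)
    (hW : HypW m r b) (hKl : KlG m b) (hc : IsCov m s b) (hs : s ∉ MMr m r b) {T : AV}
    (N : New T m s b) (D : Cyc T m) (hD : D.Z = N.Z) : GFw D r := by
  rw [MMr, if_pos ⟨h2, hW, hKl⟩] at hs
  obtain ⟨hE, hDE⟩ := cyc_eq N D hD
  have hF : Full D := by
    by_contra h
    refine hs ⟨hc.2.1, fun hall => h ?_⟩
    rw [← hDE]
    exact hall T hc N D.ψ hE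
  exact ⟨hc.1, h2.ge, N.dim, isHit_of_full mods hc.1 hF⟩

/-! ## Two covers with the same four branch points -/

theorem pairS_inc (K : ModsK) (m : ℕ) (b : Fin (2 + 1) → ℕ) (m' : ℕ) (b' : Fin (2 + 1) → ℕ)
    (hW : HypW m 2 b) (hW' : HypW m' 2 b') :
    IsMeagre {s : Fin (2 + 1) → ℂ | Inc s ∧ ¬ InX m 2 b m' 2 b' s s} := by
  have M := modsX
  obtain ⟨N₀, hN₀, hC⟩ := M.kC m 2 b (by omega) (SEX.pos_of_hypW hW)
  obtain ⟨N₁, hN₁, hC'⟩ := M.kC m' 2 b' (by omega) (SEX.pos_of_hypW hW')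
  obtain ⟨u, hum, huc, hp, hq⟩ := hW'
  have hmU : IsMeagre (⋃ z : {z : ℕ // ¬ Rk (mu m b z) (mu m' b' u) ∧ 0 < sg m 2 b z ∧
      0 < sg m 2 b (m - z)}, {s : Fin (2 + 1) → ℂ | AdX m b z.1 m' b' u s ∧
        LkB m b z.1 m' b' u s}) :=
    isMeagre_iUnion fun z => K.q6 m m' b b' z.1 u z.2.1 z.2.2.1 z.2.2.2
  refine ((hN₀.union hN₁).union hmU).mono ?_
  rintro s ⟨hs, hno⟩
  by_contra hbad
  rw [Set.mem_union, Set.mem_union, not_or, not_or] at hbad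
  obtain ⟨⟨hb0, hb1⟩, hb2⟩ := hbad
  refine hno fun T T' hc hc' N D hZ hD N' D' hZ' hD' => ?_
  by_contra hcon
  rw [not_or] at hcon
  obtain ⟨hisg, hind⟩ := hcon
  refine hind fun h hh s₀ t₀ => ?_
  by_contra hn
  obtain ⟨v, hv, hJ⟩ := hC s hs hb0 hc T N D hZ
  obtain ⟨v', hv', hJ'⟩ := hC' s hs hb1 hc' T' N' D' hZ'
  obtain ⟨w, hw⟩ := exists_unit hum huc
  have hpw : D'.p w = sg m' 2 b' u := by rw [M.Pn T' m' 2 s b' hc' N' D' hZ', hw]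
  have hpn : D'.p (-w) = sg m' 2 b' (m' - u) := by
    have : NeZero m' := ⟨by have := hc'.1; omega⟩
    rw [M.Pn T' m' 2 s b' hc' N' D' hZ', Hit_aux.neg_val hc'.1 w, hw]
  have hsum : D'.p w + D'.p (-w) = 2 := (dim_all T' m' 2 D' hD'.hm hD'.dim w).2
  obtain ⟨s₁, θ, hθ, hθJ⟩ := (M.kT T T' m m' 2 2 D D' hD hD' h hh s₀ t₀ hn).2 w (by omega)
    (by omega)
  obtain ⟨B, hB, hBJ⟩ := M.kA T T' m m' 2 D D' hD hD' v v' hv hv' h hh s₁ w θ hθ hθJ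
  obtain ⟨J₁, hJ₁, -⟩ := M.kI T m 2 D hD.hm hD.dim v hv s₁
  obtain ⟨J₂, hJ₂, -⟩ := M.kI T' m' 2 D' hD'.hm hD'.dim v' hv' w
  have hm3 := hc.1
  have : NeZero m := ⟨by omega⟩
  have hs₁m : (s₁ : ZMod m).val < m := ZMod.val_lt _
  have hs₁c : (s₁ : ZMod m).val.Coprime m := ZMod.val_coe_unit_coprime s₁
  have hA : Admc m b (s₁ : ZMod m).val s := ⟨hs, hc, hs₁m, hs₁c⟩
  have hA' : Admc m' b' u s := ⟨hs, hc', hum, huc⟩
  have hN : NDc m b (s₁ : ZMod m).val s := (hJ s₁).1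
  have hN' : NDc m' b' u s := by
    have := (hJ' w).1
    rwa [hw] at this
  have hJc : IsJc m b (s₁ : ZMod m).val s J₁ := (hJ s₁).2 J₁ hJ₁
  have hJc' : IsJc m' b' u s J₂ := by
    have := (hJ' w).2 J₂ hJ₂
    rwa [hw] at this
  have hrel := hBJ _ _ hJ₁ hJ₂
  obtain ⟨hsg1, hsg2⟩ := SEX.sg_eq M hA hN hA' hN' hB.1 hJc hJc' hrel
  have hRk : Rk (mu m b (s₁ : ZMod m).val) (mu m' b' u) := by
    by_contra hne
    refine hb2 (Set.mem_iUnion.2 ⟨⟨(s₁ : ZMod m).val, hne, by omega, by omega⟩,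
      ⟨hA, hN, hA', hN'⟩, B, hB, ?_⟩)
    intro J J' h1 h2
    obtain ⟨J₃, -, h3, -⟩ := M.Jx m 2 b _ s hA hN
    obtain ⟨J₄, -, h4, -⟩ := M.Jx m' 2 b' _ s hA' hN'
    rw [h3 J h1, h4 J' h2, ← h3 J₁ hJc, ← h4 J₂ hJc']
    exact hrel
  obtain ⟨rfl, v₁, hv₁, hU⟩ := K.q4 m m' b b' _ u s s hc hc' hs₁m hs₁c hum huc (by omega)
    (by omega) hRk
  -- the unit for `v₁` and the link
  obtain ⟨w₁, hw₁, θ₁, hθ₁⟩ : ∃ w₁ : (ZMod m)ˣ, (w₁ : ZMod m).val = v₁ ∧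
      ∃ θ₁ : Ws D s₁ ≃ₗ[ℂ] Ws D' w₁, Itw h θ₁ := by
    rcases hv₁ with rfl | rfl
    · exact ⟨w, hw, θ, hθ⟩
    · refine ⟨-w, by rw [Hit_aux.neg_val hc'.1 w, hw], ?_⟩
      exact tR2t tPrj tDua T T' m m D D' hD' h hh s₁ w θ hθ
  obtain ⟨g, rfl⟩ : ∃ g : (ZMod m)ˣ, w₁ = g * s₁ := ⟨w₁ * s₁⁻¹, (inv_mul_cancel_right _ _).symm⟩
  refine hisg (same_isgw tPrj tTh1g (tCutg tTrS tTrJ) (tTrE tTrS) (tHomg tRSH)
    (tIsog tPrj tGaH) hD hD' g (fun x => ?_) hh s₁ θ₁ hθ₁)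
  rw [M.Pn T m 2 s b hc N D hZ, M.Pn T' m 2 s b' hc' N' D' hZ']
  refine hU ((x * s₁⁻¹ : (ZMod m)ˣ) : ZMod m).val _ _ (ZMod.val_coe_unit_coprime _) ?_ ?_
  · rw [← ZMod.natCast_eq_natCast_iff, Nat.cast_mul, ZMod.natCast_zmod_val,
      ZMod.natCast_zmod_val, ZMod.natCast_zmod_val, ← Units.val_mul]
    exact congrArg Units.val (inv_mul_cancel_right x s₁).symm
  · rw [← ZMod.natCast_eq_natCast_iff, ← hw₁, Nat.cast_mul, ZMod.natCast_zmod_val,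
      ZMod.natCast_zmod_val, ZMod.natCast_zmod_val, ← Units.val_mul]
    refine congrArg Units.val ?_
    rw [mul_comm g s₁, ← mul_assoc, inv_mul_cancel_right, mul_comm]

theorem pairS2 (K : ModsK) (m : ℕ) (b : Fin (2 + 1) → ℕ) (m' : ℕ) (b' : Fin (2 + 1) → ℕ)
    (hW : HypW m 2 b) (hW' : HypW m' 2 b') :
    IsMeagre {s : Fin (2 + 1) → ℂ | ¬ InX m 2 b m' 2 b' s s} := by
  refine (tcSo 2 (fun σ => {s : Fin (2 + 1) → ℂ | Inc s ∧
    ¬ InX m 2 (b ∘ σ) m' 2 (b' ∘ σ) s s}) fun σ => pairS_inc K m (b ∘ σ) m' (b' ∘ σ)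
      (hypW_perm σ hW) (hypW_perm σ hW')).mono ?_
  rintro s hno σ hσ
  exact ⟨hσ, fun h => hno (inX_perm modsX σ σ h)⟩

end SEK
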