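import Pool.Agent.Lib.SE.K.Jnk
import Pool.Agent.Lib.SE.L.Dt

/-!
# PROJECT SE-K: new parts with four very general branch points are good factors (helper64)
-/

set_option autoImplicit false

open Module

noncomputable section

namespace SEK

open HC HC.E HC.SE SEB SEQ SEG SE SEL

/-- New parts with four very general branch points without symmetry, one signature `(2, 0)`. -/
theorem nwK_pre {G : AV} {m r : ℕ} {b : Fin (r + 1) → ℕ} {s : Fin (r + 1) → ℂ}
    (N : New G m s b) (hc : IsCov m s b) (hr : r = 2) (hs : s ∉ MMr m r b) (hKl : KlG m b)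
    (h2 : ∃ u < m, u.Coprime m ∧ sg m r b u = 2) :
    IsCM G ∨ (r = 2 ∧ finrank ℂ G.V = 2) ∨ ∃ D : Cyc G m, D.Z = N.Z ∧
      (∀ u : (ZMod m)ˣ, D.p u = sg m r b (u : ZMod m).val) ∧ GFw D r ∧ HDa D ∧
      (∃ u, 0 < D.p u ∧ D.p u < r) ∧ (∃ s, 2 ≤ D.p s) ∧ (3 ≤ r ∨ 2 < m.totient) := by
  subst hr
  have hm : 3 ≤ m := hc.1
  have : NeZero m := ⟨by omega⟩
  obtain ⟨D, hD⟩ := tAvg G m (by omega) N.Z N.lat N.cyc
  have hsg : ∀ u : (ZMod m)ˣ, D.p u = sg m 2 b (u : ZMod m).val :=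
    tPnew tSg mods.Bas G m 2 s b hc N D hD
  have hsum := sum_p (D := D) hm N.dim
  have hda : HDa D := fun R hR =>
    SEP.hasDA s_da SEP.s_DAB (Or.inl ⟨2, s, b, N, hc, hD.symm⟩) hR
  by_cases hdef : ∀ s, D.p s = 0 ∨ D.p (-s) = 0
  · exact Or.inl (isCM_def hm N.dim hdef)
  simp only [not_forall, not_or] at hdef
  obtain ⟨v, hv1, hv2⟩ := hdef
  have hv := hsum v
  have hind : ∃ u, 0 < D.p u ∧ D.p u < 2 := ⟨v, by omega, by omega⟩
  have hdim := N.dim
  by_cases ht : m.totient = 2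
  · exact Or.inr (Or.inl ⟨rfl, by omega⟩)
  have ht2 : 2 < m.totient := by
    have h1 : 0 < m.totient := Nat.totient_pos.2 (by omega)
    have h2 : Even m.totient := Nat.totient_even (by omega)
    obtain ⟨k, hk⟩ := h2
    omega
  have hW : HypW m 2 b := by
    refine ⟨(v : ZMod m).val, ZMod.val_lt _, ZMod.val_coe_unit_coprime v, ?_, ?_⟩
    · rw [← hsg]
      omega
    · have h1 := tSg m 2 s b hc (v : ZMod m).val (ZMod.val_lt _)
        (ZMod.val_coe_unit_coprime v)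
      rw [← hsg] at h1
      omega
  obtain ⟨u, hum, huc, hu2⟩ := h2
  obtain ⟨w, hw⟩ := exists_unit hum huc
  refine Or.inr (Or.inr ⟨D, hD, hsg, gfw_of_MMr rfl hW hKl hc hs N D hD, hda, hind,
    ⟨w, ?_⟩, Or.inr ht2⟩)
  rw [hsg, hw, hu2]

end SEK
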