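import Pool.Agent.Lib.SE.X.Spec
import Pool.Agent.Lib.SE.Big.cRk1

/-!
# PROJECT SE-K: four very general branch points (helper64)

Covers with the four branch points `s_0, s_1, s_2, ∞` (`r = 2`), `s` very general. Two of them (or two characters of
one of them) can be linked only if `(1 - μ_i - μ_j)² = (1 - μ'_i - μ'_j)²` for all `i ≠ j`: the period ratios satisfy
the hypergeometric differential equation, and a link makes the Schwarzian derivatives equal. So the exponents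
agree up to the sign and the four permutations of `s_0, s_1, s_2, ∞` of the Klein four group.

Every module: file `SE/K/qXyz.lean`, `theorem tqXyz : S_qXyz`, namespace `SEK` (after it
`open HC HC.E HC.SE SEB SEQ SEG SEY SEX`), import `Pool.Agent.Lib.SE.K.Spec` and the proved modules you want. If the
docstring says `From S_A` the theorem is `tqXyz : S_A → S_qXyz`. Auxiliary lemmas in `namespace SEK.qXyz_aux`.
-/

set_option autoImplicit false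

open Module MeasureTheory Topology

noncomputable section

namespace SEK

open HC HC.E HC.SE SEB SEQ SEG SEY SEX

/-- The derivative of the integral in the direction of `s_i`. -/
def E1 (μ : Fin (2 + 1) → ℝ) (i : Fin (2 + 1)) (k : Fin 2) (s : Fin (2 + 1) → ℂ) : ℂ :=
  Ic μ s k fun x => (Thc μ s (cRk1_aux.ac s i) 1).eval x

/-- The coefficients of the hypergeometric equation. -/
def Pq (μ : Fin (2 + 1) → ℝ) (s : Fin (2 + 1) → ℂ) (i j l : Fin (2 + 1)) : ℂ :=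
  -((μ i : ℂ) + μ j) / (s i - s j) - ((μ i : ℂ) + μ l) / (s i - s l)

def Qr (μ : Fin (2 + 1) → ℝ) (s : Fin (2 + 1) → ℂ) (i j l : Fin (2 + 1)) : ℂ :=
  (μ i : ℂ) * (1 - ∑ n, (μ n : ℂ)) / ((s i - s j) * (s i - s l))

/-- The invariant `q + p²/4 - p'/2`. -/
def Iv (μ : Fin (2 + 1) → ℝ) (s : Fin (2 + 1) → ℂ) (i j l : Fin (2 + 1)) : ℂ :=
  (((μ i : ℂ) + μ j) ^ 2 - 2 * ((μ i : ℂ) + μ j)) / (4 * (s i - s j) ^ 2) +
    (((μ i : ℂ) + μ l) ^ 2 - 2 * ((μ i : ℂ) + μ l)) / (4 * (s i - s l) ^ 2) +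
    (((μ i : ℂ) + μ j) * ((μ i : ℂ) + μ l) / 2 + (μ i : ℂ) * (1 - ∑ n, (μ n : ℂ))) /
      ((s i - s j) * (s i - s l))

/-- The relation of the exponents. -/
def Rk (μ μ' : Fin (2 + 1) → ℝ) : Prop :=
  ∀ i j, i ≠ j → (1 - μ i - μ j) ^ 2 = (1 - μ' i - μ' j) ^ 2

/-- The exponents `b_0, b_1, b_2, b_∞ = -∑ b_n` have no symmetry: if `h` exchanges `b_i`, `b_j` and `b_l`, `b_∞` modulo
`m`, then `h = ± 1`. -/
def Kl (m : ℕ) (b : Fin (2 + 1) → ℕ) : Prop :=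
  ∀ h : ℕ, h.Coprime m → (∃ i j l : Fin (2 + 1), i ≠ j ∧ i ≠ l ∧ j ≠ l ∧
    h * b i ≡ b j [MOD m] ∧ h * b j ≡ b i [MOD m] ∧ m ∣ h * b l + ∑ n, b n) →
    h ≡ 1 [MOD m] ∨ m ∣ h + 1

/-- THE HYPERGEOMETRIC EQUATION. From `S_cD`, `S_cE`, `S_cPv`-like linearity of `Ic` (`S_cI`). PROOF. `a = ac s i`
(`a(s_i) = 1`, `a(s_j) = a(s_l) = 0`), so `update s i (s_i + ε) = s + ε a(s)`; the first statement is `S_cD` for `f = 1`. Put
`Δ = (s_i - s_j)(s_i - s_l)`, `M = ∑ μ_n`. `a = (X - s_j)(X - s_l)/Δ`, and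
`P = Thc μ s a 1 = α X + β`, `α = (2 - M)/Δ`, `β = (-(s_j + s_l) + μ_j s_l + μ_l s_j - μ_i (s_i - s_j - s_l))/Δ`
(`a /ₘ (X - s_j) = (X - s_l)/Δ`, `a /ₘ (X - s_i) = (X + s_i - s_j - s_l)/Δ`). So for all `T` near `s_i` (`Inc` is open) `E1` at `update s i T` is
`α(T) Ic(X) + β(T) Ic(1)`; differentiate at `T = s_i`: `∂ Ic(1) = α Ic(X) + β Ic(1)`, `∂ Ic(X) = Ic(a + X P)` (`S_cD` for `f = X`,
`Thc a X = a + X P`), and reduce `Ic(X²)` by `S_cE` for `f = 1`: `∑_n (1 - μ_n) Ic(Q_n) = 0`, `Q_n = ∏_(l ≠ n) (X - s_l)`. Checked by computer: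
the result is `Pq E1 + Qr Ic(1)` (field_simp, then `linear_combination` with the relation; `M ≠ 3` as `μ_n < 1`). Linearity of `Ic` in `f`: as in
SE/Big/cPv.lean. -/
def S_q1 : Prop :=
  ∀ (μ : Fin (2 + 1) → ℝ) (s : Fin (2 + 1) → ℂ), Exq μ → Inc s →
    ∀ i j l : Fin (2 + 1), i ≠ j → i ≠ l → j ≠ l → ∀ k : Fin 2,
    HasDerivAt (fun T : ℂ => Ic μ (Function.update s i T) k fun x =>
      (1 : Polynomial ℂ).eval x) (E1 μ i k s) (s i) ∧
    HasDerivAt (fun T : ℂ => E1 μ i k (Function.update s i T))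
      (Pq μ s i j l * E1 μ i k s + Qr μ s i j l * Ic μ s k fun x =>
        (1 : Polynomial ℂ).eval x) (s i)

/-- A LINK PRESERVES THE INVARIANT. From `S_q1`, `S_cKap`, `S_cPv`, `S_cJx`. PROOF. Fix `s ∈ U`, `i`; `s_T = update s i T ∈ U` for `T` near
`s_i`. `ω(T) = Pc_u(1)`, `η(T) = Pc_v(1)` at `s_T`, in `ℂ²`. `S_cJx`, `LkX`: `J'(θ ω) = i θ ω` and `sg v = 1`, so `θ ω(T) = c(T) η(T)`,
`c(T) ∈ ℂ`. `η(T) ≠ 0` (`Nj`), so `c = (θ ω)_k / η_k` (for a `k` with `η_k(s_i) ≠ 0`) is differentiable near `s_i`, and so is its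
derivative (`S_q1` at all `s_T`; multiply by the constants `kap_k`). `ω'' = p ω' + q ω`, `η'' = p₁ η' + q₁ η`. Differentiate `θ ω = c η`
twice: `p (c' η + c η') + q c η = c'' η + 2 c' η' + c (p₁ η' + q₁ η)`. `η`, `η'` are linearly independent (`Nj`: `η' = Pc_v(P)`, `P = Thc (ac s i) 1`
of degree exactly 1, see `S_q1`), so (1) `p c = 2 c' + c p₁`, (2) `p c' + q c = c'' + c q₁`. (1) holds for all `T` near `s_i`, so
`c'' = (dp - dp₁) c/2 + (p - p₁)² c/4`, `dp = ((μ_i + μ_j)/(s_i - s_j)² + (μ_i + μ_l)/(s_i - s_l)²)` the derivative of `p`. `c ≠ 0` (`θ` injective, `ω ≠ 0` by `NDc`).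
(2): `q - q₁ = (dp - dp₁)/2 - (p² - p₁²)/4`, which is `Iv = Iv₁`. -/
def S_q2 : Prop :=
  ∀ (m m' : ℕ) (b b' : Fin (2 + 1) → ℕ) (u v : ℕ) (U : Set (Fin (2 + 1) → ℂ)), IsOpen U →
    (∀ s ∈ U, AdX m b u m' b' v s) → (∀ s ∈ U, Nj (mu m' b' v) s) →
    ∀ θ : Module.End ℂ (Fin 2 → ℂ), Function.Injective θ →
    (∀ s ∈ U, LkX m b u m' b' v s θ) → sg m 2 b u = 1 → sg m' 2 b' v = 1 →
    ∀ s ∈ U, ∀ i j l : Fin (2 + 1), i ≠ j → i ≠ l → j ≠ l →
      Iv (mu m b u) s i j l = Iv (mu m' b' v) s i j l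

/-- PROOF. Fix `i, j, l`; `x = s_i - s_j`, `y = s_i - s_l`. `Iv = Iv'` is `α y² + β x² + γ x y = 0`,
`4 α = (μ_i + μ_j)² - 2 (μ_i + μ_j) - (μ'_i + μ'_j)² + 2 (μ'_i + μ'_j)`. For fixed `s_i`, `s_j` this holds for all `y` in a nonempty open
set (`U` is open, move `s_l`), so `α = 0`: `(1 - μ_i - μ_j)² = (1 - μ'_i - μ'_j)²`. -/
def S_q3 : Prop :=
  ∀ (μ μ' : Fin (2 + 1) → ℝ) (U : Set (Fin (2 + 1) → ℂ)), IsOpen U → U.Nonempty →
    (∀ s ∈ U, Function.Injective s) → (∀ s ∈ U, ∀ i j l : Fin (2 + 1), i ≠ j → i ≠ l → j ≠ l →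
      Iv μ s i j l = Iv μ' s i j l) → Rk μ μ'

/-- ARITHMETIC. PROOF. `n_j = u b_j mod m`, `j = 0, 1, 2`, `n_3 = 2 m - n_0 - n_1 - n_2`, so `0 < n_3 < m` (`sg m 2 b u = 1` means
`m ≤ ∑ n_j < 2 m`, and `m ∤ ∑ n_j`), `n_3 = u b_3 mod m` with `b_3 = -∑ b_n`. `x_j = 1 - n_j/m = mu_j`, `j ≤ 3`, `∑ x_j = 2`; similarly `x'_j`. `Rk`
says `1 - x_i - x_j = ± (1 - x'_i - x'_j)` for `{i,j} ⊂ {0,1,2}`. From `X_ij = 1 - x_i - x_j`:
`1 - 2 x_0 = X_01 + X_02 - X_12` etc. The 8 choices of the signs give `x' = x ∘ π` or `1 - x ∘ π`, `π` in the Klein group of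
`{0,1,2,3}` (for instance the signs `+,-,-` of `X_01, X_02, X_12` give `x'_0 = x_1`, `x'_1 = x_0`, `x'_2 = x_3`). So with `v' = v` or `v' = m' - v`:
`(v' b'_j mod m')/m' = (u b_(π j) mod m)/m` for `j = 0, …, 3`. `m = m'` as in `S_xU` (`b_0, b_1, b_2, b_3` and `m` have no common divisor, similarly
`b'`), so `v' b'_j = u b_(π j)` modulo `m` for `j = 0, …, 3`. Then `w v' b'_j = w u b_(π j)`, and for `x` prime to `m` `sg m 2 b x` is determined by the sum of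
the four residues of `x b_j`: if it is `t m` then `sg m 2 b x = 3 - t`. -/
def S_q4 : Prop :=
  ∀ (m m' : ℕ) (b b' : Fin (2 + 1) → ℕ) (u v : ℕ) (s s' : Fin (2 + 1) → ℂ), IsCov m s b →
    IsCov m' s' b' → u < m → u.Coprime m → v < m' → v.Coprime m' → sg m 2 b u = 1 →
    sg m' 2 b' v = 1 → Rk (mu m b u) (mu m' b' v) →
    m = m' ∧ ∃ v' : ℕ, (v' = v ∨ v' = m - v) ∧
      ∀ w x y : ℕ, w.Coprime m → x ≡ w * u [MOD m] → y ≡ w * v' [MOD m] →
        sg m 2 b x = sg m 2 b' y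

/-- ARITHMETIC, one cover. PROOF. As `S_q4`: `v' b_j = u b_(π j)` modulo `m` for `j = 0, …, 3`, `v' = v` or `m - v`, `π` in the Klein
group. `π = 1`: `v' = u` (`m` divides all `(v' - u) b_j`; `IsCov`). `π = (i j)(l 3)`: `h` with `h u = v'` modulo `m`; `h b_i = b_j`, `h b_j = b_i`, `h b_l = b_3`
modulo `m`, so `Kl` gives `h = ± 1`, `v' = ± u`. -/
def S_q5 : Prop :=
  ∀ (m : ℕ) (b : Fin (2 + 1) → ℕ) (u v : ℕ) (s : Fin (2 + 1) → ℂ), IsCov m s b → u < m →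
    u.Coprime m → v < m → v.Coprime m → sg m 2 b u = 1 → sg m 2 b v = 1 →
    Rk (mu m b u) (mu m b v) → Kl m b → v = u ∨ v = m - u

/-- BAIRE. From `S_q2`, `S_q3`, `S_cI`, `S_cKap`, `S_cPv`, `S_cC`, `S_cJx`, `S_cN`, `S_Sg`, `S_eO`. PROOF. As SE/X/xB.lean, SE/X/xF.lean. If the set is not
empty then `sg m' v = sg m u = 1` (`θ` is bijective and maps the eigenspaces of `J` to those of `J'`, `S_cJx`, `S_Sg`). Countably many `θ`; for
each of them the set is relatively closed in an open set; if it contains a nonempty open set, then the part of it with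
`Nj (mu m' b' v)` is open (`S_eO`) and not empty (`S_cN`), and `S_q2`, `S_q3` give `Rk`. -/
def S_q6 : Prop :=
  ∀ (m m' : ℕ) (b b' : Fin (2 + 1) → ℕ) (u v : ℕ), ¬ Rk (mu m b u) (mu m' b' v) →
    0 < sg m 2 b u → 0 < sg m 2 b (m - u) →
    IsMeagre {s : Fin (2 + 1) → ℂ | AdX m b u m' b' v s ∧ LkB m b u m' b' v s}

end SEK
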